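import Mathlib

namespace Pool.Agent.Helper53_Quad

/-- two-step elimination of the middle tilt `b` -/
lemma twostep {l x1 x2 x3 a b c : ℝ} (hl : 0 < l) (h1 : 0 ≤ x1) (h2 : 0 ≤ x2) (h3 : 0 ≤ x3)
    (hk1 : x1^2 + x2^2 ≤ l^2) (hk2 : x2^2 + x3^2 ≤ l^2)
    (hD1 : 0 ≤ (l + x1 + x2) * a + (l + x1 - x2))
    (hD1' : 0 ≤ (l + x2 - x1) - (l + x1 + x2) * b)
    (hD2 : 0 ≤ (l + x2 + x3) * b + (l + x2 - x3))
    (hD2' : 0 ≤ (l + x3 - x2) - (l + x2 + x3) * c)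
    (hA1 : l * (1 - a + b + a * b) ≤ x1 * (1 - a - b - a * b) + x2 * (1 + a + b - a * b))
    (hA2 : l * (1 - b + c + b * c) ≤ x2 * (1 - b - c - b * c) + x3 * (1 + b + c - b * c)) :
    0 ≤ ((l + x2)^2 - x1 * x3) * a + (x1 + x3) * x2 + l * (x1 - x3) ∧
    0 ≤ - ((l + x2)^2 - x1 * x3) * c + (x1 + x3) * x2 - l * (x1 - x3) ∧
    (l^2 - x1^2 - x2^2) * (l^2 - x2^2 - x3^2) ≤
      (((l + x2)^2 - x1 * x3) * a + (x1 + x3) * x2 + l * (x1 - x3))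
        * (- ((l + x2)^2 - x1 * x3) * c + (x1 + x3) * x2 - l * (x1 - x3)) := by
  have hK : 0 ≤ (l + x2)^2 - x1 * x3 := by nlinarith [sq_nonneg (x1 - x3), mul_nonneg hl.le h2]
  -- N1 - b D1 ≥ 0
  have hN1 : 0 ≤ ((x1 + x2 - l) + a * (l + x2 - x1)) - b * ((l + x1 + x2) * a + (l + x1 - x2)) := by
    linear_combination hA1
  have hN2 : 0 ≤ ((x2 + x3 - l) - c * (l + x2 - x3)) + b * ((l + x3 - x2) - (l + x2 + x3) * c) := by
    linear_combination hA2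
  have p1 := mul_nonneg (by positivity : 0 ≤ l + x2 + x3) hN1
  have p2 := mul_nonneg hD1 hD2
  have p3 := mul_nonneg (by positivity : 0 ≤ l + x1 + x2) hN2
  have p4 := mul_nonneg hD1' hD2'
  have q1 := mul_nonneg hN1 hD2'
  have q2 := mul_nonneg hN2 hD1
  have q3 : 0 ≤ ((x1 + x2 - l) + a * (l + x2 - x1))
          * ((l + x3 - x2) - (l + x2 + x3) * c)
          + ((x2 + x3 - l) - c * (l + x2 - x3)) * ((l + x1 + x2) * a + (l + x1 - x2)) := by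
    linear_combination q1 + q2
  have q4 := mul_nonneg hK q3
  refine ⟨?_, ?_, ?_⟩
  · linear_combination (1/2) * p1 + (1/2) * p2
  · linear_combination (1/2) * p3 + (1/2) * p4
  · linear_combination (1/2) * q4

/-- The polynomial `τ` -/
lemma tau_id (l x1 x2 x3 x4 : ℝ) (U2 V2 U4 V4 : ℝ)
    (hU : ((l + x4)^2 - x1 * x3) * U2 + ((l + x2)^2 - x1 * x3) * U4
      = ((l + x4)^2 - x1 * x3) * ((x1 + x3) * x2 + l * (x1 - x3))
        + ((l + x2)^2 - x1 * x3) * ((x1 + x3) * x4 + l * (x1 - x3)))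
    (hV : ((l + x4)^2 - x1 * x3) * V2 + ((l + x2)^2 - x1 * x3) * V4
      = ((l + x4)^2 - x1 * x3) * ((x1 + x3) * x2 - l * (x1 - x3))
        + ((l + x2)^2 - x1 * x3) * ((x1 + x3) * x4 - l * (x1 - x3))) :
    2 * ((l + x4)^2 - x1 * x3) * ((l + x2)^2 - x1 * x3) *
      ((x1 + x3)^2 * x2 * x4 - l^2 * (x1 - x3)^2
        - (((l + x4)^2 - x1 * x3) * ((l - x2)^2 - x1 * x3)
          + ((l + x2)^2 - x1 * x3) * ((l - x4)^2 - x1 * x3)) / 2)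
    = ((l + x4)^2 - x1 * x3)^2 * (U2 * V2 - (l^2 - x1^2 - x2^2) * (l^2 - x2^2 - x3^2))
      + ((l + x2)^2 - x1 * x3)^2 * (U4 * V4 - (l^2 - x3^2 - x4^2) * (l^2 - x4^2 - x1^2))
      + ((l + x4)^2 - x1 * x3) * ((l + x2)^2 - x1 * x3) * (U2 * V4 + U4 * V2) := by
  have h : (((l + x4)^2 - x1 * x3) * U2 + ((l + x2)^2 - x1 * x3) * U4)
      * (((l + x4)^2 - x1 * x3) * V2 + ((l + x2)^2 - x1 * x3) * V4)
      = (((l + x4)^2 - x1 * x3) * ((x1 + x3) * x2 + l * (x1 - x3))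
        + ((l + x2)^2 - x1 * x3) * ((x1 + x3) * x4 + l * (x1 - x3)))
        * (((l + x4)^2 - x1 * x3) * ((x1 + x3) * x2 - l * (x1 - x3))
        + ((l + x2)^2 - x1 * x3) * ((x1 + x3) * x4 - l * (x1 - x3))) := by rw [hU, hV]
  linear_combination (-1) * h

/-- squeezing lemma used in the equality case -/
lemma mn_zero {c m n : ℝ} (hc : 0 < c) (h1 : 0 ≤ c + m) (h2 : 0 ≤ c + n) (h3 : 0 ≤ c - m)
    (h4 : 0 ≤ c - n) (hA : c * c ≤ (c + m) * (c + n)) (hB : c * c ≤ (c - n) * (c - m)) :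
    m = 0 ∧ n = 0 := by
  have g1 : 0 ≤ c * (m + n) + m * n := by linear_combination hA
  have g2 : 0 ≤ - c * (m + n) + m * n := by linear_combination hB
  have hmn : 0 ≤ m * n := by linarith
  have key : ∀ m n : ℝ, 0 ≤ m → 0 ≤ n → n ≤ c → m ≤ c → 0 ≤ - c * (m + n) + m * n → m = 0 ∧ n = 0 := by
    intro m n hm hn hnc hmc h
    have k1 : m * n ≤ c * n := mul_le_mul_of_nonneg_right hmc hn
    have k2 : m * n ≤ m * c := mul_le_mul_of_nonneg_left hnc hm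
    have k3 : c * m ≤ 0 := by linarith
    have k4 : c * n ≤ 0 := by linarith
    constructor
    · by_contra hne
      have : 0 < m := lt_of_le_of_ne hm (Ne.symm hne)
      have := mul_pos hc this
      linarith
    · by_contra hne
      have : 0 < n := lt_of_le_of_ne hn (Ne.symm hne)
      have := mul_pos hc this
      linarith
  rcases le_total 0 m with hm | hm
  · rcases le_total 0 n with hn | hn
    · exact key m n hm hn (by linarith) (by linarith) g2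
    · have hz : m * n = 0 := le_antisymm (mul_nonpos_of_nonneg_of_nonpos hm hn) hmn
      have hsum : c * (m + n) = 0 := by
        rw [hz] at g1 g2; linarith
      have hs : m + n = 0 := by
        rcases mul_eq_zero.mp hsum with h | h
        · exact absurd h hc.ne'
        · exact h
      have h5 : n = -m := by linarith
      rcases mul_eq_zero.mp hz with h | h
      · exact ⟨h, by rw [h5, h]; simp⟩
      · exact ⟨by linarith, h⟩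
  · rcases le_total 0 n with hn | hn
    · have hz : m * n = 0 := le_antisymm (mul_nonpos_of_nonpos_of_nonneg hm hn) hmn
      have hsum : c * (m + n) = 0 := by
        rw [hz] at g1 g2; linarith
      have hs : m + n = 0 := by
        rcases mul_eq_zero.mp hsum with h | h
        · exact absurd h hc.ne'
        · exact h
      have h5 : n = -m := by linarith
      rcases mul_eq_zero.mp hz with h | h
      · exact ⟨h, by rw [h5, h]; simp⟩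
      · exact ⟨by linarith, h⟩
    · obtain ⟨h5, h6⟩ := key (-m) (-n) (by linarith) (by linarith) (by linarith) (by linarith)
        (by linear_combination g1)
      exact ⟨by linarith, by linarith⟩

/-- lower bound for `τ` -/
lemma tau_lower {K2 K4 U2 V2 U4 V4 d1 d2 d3 d4 τ : ℝ} (hK2 : 0 < K2) (hK4 : 0 < K4)
    (hU2 : 0 ≤ U2) (hV2 : 0 ≤ V2) (hU4 : 0 ≤ U4) (hV4 : 0 ≤ V4)
    (hd1 : 0 ≤ d1) (hd2 : 0 ≤ d2) (hd3 : 0 ≤ d3) (hd4 : 0 ≤ d4)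
    (hUV2 : d1 * d2 ≤ U2 * V2) (hUV4 : d3 * d4 ≤ U4 * V4)
    (hid : 2 * K4 * K2 * τ = K4^2 * (U2 * V2 - d1 * d2) + K2^2 * (U4 * V4 - d3 * d4)
      + K4 * K2 * (U2 * V4 + U4 * V2)) :
    0 ≤ τ ∧ (d1 * d3) * (d2 * d4) ≤ τ * τ := by
  have hKK : 0 < K4 * K2 := mul_pos hK4 hK2
  have e1 : 0 ≤ K4^2 * (U2 * V2 - d1 * d2) := mul_nonneg (sq_nonneg _) (by linarith)
  have e2 : 0 ≤ K2^2 * (U4 * V4 - d3 * d4) := mul_nonneg (sq_nonneg _) (by linarith)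
  have e3 : K4 * K2 * (U2 * V4 + U4 * V2) ≤ K4 * K2 * (2 * τ) := by
    linear_combination e1 + e2 - hid
  have hτ1 : U2 * V4 + U4 * V2 ≤ 2 * τ := le_of_mul_le_mul_left e3 hKK
  have hw1 := mul_nonneg hU2 hV4
  have hw2 := mul_nonneg hU4 hV2
  have hτ0 : 0 ≤ τ := by linarith
  refine ⟨hτ0, ?_⟩
  have f1 : (d1 * d2) * (d3 * d4) ≤ (U2 * V2) * (U4 * V4) :=
    mul_le_mul hUV2 hUV4 (mul_nonneg hd3 hd4) (mul_nonneg hU2 hV2)
  have f2 : (U2 * V4 + U4 * V2) * (U2 * V4 + U4 * V2) ≤ (2 * τ) * (2 * τ) :=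
    mul_le_mul hτ1 hτ1 (by linarith) (by linarith)
  have f3 := sq_nonneg (U2 * V4 - U4 * V2)
  linear_combination f1 + (1/4) * f2 + (1/4) * f3

/-- upper bound for `τ`, giving the contradiction -/
lemma tau_upper {l p q s r d13 d24 τ : ℝ} (hp : 0 < p) (hq : 0 < q) (hpq : p + q ≤ l)
    (E13 : d13 - τ = 2 * (l^2 - (p+q)^2) * ((l^2 - p^2 - q^2) + 2 * p * q) + 4 * s^2 * q^2
      + 4 * r^2 * p^2 + 2 * (s^2 + r^2)^2 + 4 * (l^2 - p^2 - q^2) * (s^2 + r^2)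
      + 4 * (p * r - q * s)^2)
    (E24 : d24 - τ = 2 * (l^2 - (p+q)^2) * ((l^2 - p^2 - q^2) + 2 * p * q) + 4 * s^2 * q^2
      + 4 * r^2 * p^2 + 2 * (s^2 + r^2)^2 + 4 * (l^2 - p^2 - q^2) * (s^2 + r^2)
      + 4 * (p * r + q * s)^2)
    (hτ0 : 0 ≤ τ) (hτ2 : d13 * d24 ≤ τ * τ) :
    l = p + q ∧ s = 0 ∧ r = 0 := by
  have hpq0 : 0 < p * q := mul_pos hp hq
  have hl2 : (p + q) * (p + q) ≤ l * l := mul_self_le_mul_self (by linarith) hpq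
  obtain ⟨N, eN⟩ : ∃ N, N = l^2 - p^2 - q^2 := ⟨_, rfl⟩
  have hN : 0 < N := by rw [eN]; linarith
  obtain ⟨M, eM⟩ : ∃ M, M = l^2 - (p+q)^2 := ⟨_, rfl⟩
  have hM : 0 ≤ M := by rw [eM]; linarith
  rw [← eN, ← eM] at E13 E24
  by_contra hcon
  have hpos : 0 < 2 * M * (N + 2 * p * q) + 4 * N * (s^2 + r^2) := by
    have hNp : 0 < N + 2 * p * q := by linarith
    by_cases hlt : p + q < l
    · have hM' : 0 < M := by
        have := mul_self_lt_mul_self (by linarith : 0 ≤ p + q) hlt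
        rw [eM]; linarith
      have h1 : 0 < 2 * M * (N + 2 * p * q) := by positivity
      have h2 : 0 ≤ 4 * N * (s^2 + r^2) := by positivity
      linarith
    · have hlq : l = p + q := le_antisymm (not_lt.mp hlt) hpq
      have hsr : 0 < s^2 + r^2 := by
        by_contra hn
        have hs2 : s^2 = 0 := le_antisymm (by linarith [sq_nonneg r, not_lt.mp hn]) (sq_nonneg s)
        have hr2 : r^2 = 0 := le_antisymm (by linarith [sq_nonneg s, not_lt.mp hn]) (sq_nonneg r)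
        exact hcon ⟨hlq, by simpa using hs2, by simpa using hr2⟩
      have h1 : 0 ≤ 2 * M * (N + 2 * p * q) := by positivity
      have h2 : 0 < 4 * N * (s^2 + r^2) := by positivity
      linarith
  have hr1 : 0 ≤ 4 * s^2 * q^2 + 4 * r^2 * p^2 + 2 * (s^2 + r^2)^2 + 4 * (p * r - q * s)^2 := by
    positivity
  have hr2 : 0 ≤ 4 * s^2 * q^2 + 4 * r^2 * p^2 + 2 * (s^2 + r^2)^2 + 4 * (p * r + q * s)^2 := by
    positivity
  have t1 : τ < d13 := by linarith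
  have t2 : τ < d24 := by linarith
  have t3 : τ * τ < d13 * d24 := mul_lt_mul'' t1 t2 hτ0 hτ0
  linarith

/-- Core algebraic inequality: `2 l ≤ x1 + x2 + x3 + x4`, with the equality case. -/
lemma core {l x1 x2 x3 x4 a1 a2 a3 a4 : ℝ} (hl : 0 < l)
    (h1 : 0 < x1) (h2 : 0 < x2) (h3 : 0 < x3) (h4 : 0 < x4)
    (hk1 : x1^2 + x2^2 ≤ l^2) (hk2 : x2^2 + x3^2 ≤ l^2)
    (hk3 : x3^2 + x4^2 ≤ l^2) (hk4 : x4^2 + x1^2 ≤ l^2)
    (hD1 : 0 ≤ (l + x1 + x2) * a1 + (l + x1 - x2))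
    (hD1' : 0 ≤ (l + x2 - x1) - (l + x1 + x2) * a2)
    (hD2 : 0 ≤ (l + x2 + x3) * a2 + (l + x2 - x3))
    (hD2' : 0 ≤ (l + x3 - x2) - (l + x2 + x3) * a3)
    (hD3 : 0 ≤ (l + x3 + x4) * a3 + (l + x3 - x4))
    (hD3' : 0 ≤ (l + x4 - x3) - (l + x3 + x4) * a4)
    (hD4 : 0 ≤ (l + x4 + x1) * a4 + (l + x4 - x1))
    (hD4' : 0 ≤ (l + x1 - x4) - (l + x4 + x1) * a1)
    (hA1 : l * (1 - a1 + a2 + a1 * a2) ≤ x1 * (1 - a1 - a2 - a1 * a2) + x2 * (1 + a1 + a2 - a1 * a2))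
    (hA2 : l * (1 - a2 + a3 + a2 * a3) ≤ x2 * (1 - a2 - a3 - a2 * a3) + x3 * (1 + a2 + a3 - a2 * a3))
    (hA3 : l * (1 - a3 + a4 + a3 * a4) ≤ x3 * (1 - a3 - a4 - a3 * a4) + x4 * (1 + a3 + a4 - a3 * a4))
    (hA4 : l * (1 - a4 + a1 + a4 * a1) ≤ x4 * (1 - a4 - a1 - a4 * a1) + x1 * (1 + a4 + a1 - a4 * a1))
    (hS : x1 + x2 + x3 + x4 ≤ 2 * l) :
    x1 + x2 + x3 + x4 = 2 * l ∧ x1 = x3 ∧ x2 = x4 ∧ a1 = 0 ∧ a3 = 0 := by
  obtain ⟨hU2, hV2, hUV2⟩ := twostep hl h1.le h2.le h3.le hk1 hk2 hD1 hD1' hD2 hD2' hA1 hA2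
  obtain ⟨hV4, hU4, hUV4⟩ := twostep hl h3.le h4.le h1.le hk3 hk4 hD3 hD3' hD4 hD4' hA3 hA4
  clear hD1 hD1' hD2 hD2' hD3 hD3' hD4 hD4' hA1 hA2 hA3 hA4
  -- rename
  obtain ⟨K2, hK2⟩ : ∃ K2, K2 = (l + x2)^2 - x1 * x3 := ⟨_, rfl⟩
  obtain ⟨K4, hK4⟩ : ∃ K4, K4 = (l + x4)^2 - x1 * x3 := ⟨_, rfl⟩
  have hPl : x1 * x3 ≤ l^2 := by
    have := sq_nonneg (x1 - x3)
    have := sq_nonneg x2
    have := sq_nonneg x4
    linear_combination (1/2) * hk1 + (1/2) * hk3 + (1/2) * this + (1/2) * sq_nonneg (x1 - x3)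
      + (1/2) * sq_nonneg x2
  have hK2p : 0 < K2 := by
    have := mul_pos hl h2
    have := sq_pos_of_pos h2
    rw [hK2]; linarith
  have hK4p : 0 < K4 := by
    have := mul_pos hl h4
    have := sq_pos_of_pos h4
    rw [hK4]; linarith
  obtain ⟨U2, eU2⟩ : ∃ U2, U2 = ((l + x2)^2 - x1 * x3) * a1 + (x1 + x3) * x2 + l * (x1 - x3) := ⟨_, rfl⟩
  obtain ⟨V2, eV2⟩ : ∃ V2, V2 = - ((l + x2)^2 - x1 * x3) * a3 + (x1 + x3) * x2 - l * (x1 - x3) := ⟨_, rfl⟩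
  obtain ⟨V4, eV4⟩ : ∃ V4, V4 = ((l + x4)^2 - x3 * x1) * a3 + (x3 + x1) * x4 + l * (x3 - x1) := ⟨_, rfl⟩
  obtain ⟨U4, eU4⟩ : ∃ U4, U4 = - ((l + x4)^2 - x3 * x1) * a1 + (x3 + x1) * x4 - l * (x3 - x1) := ⟨_, rfl⟩
  rw [← eU2] at hU2 hUV2
  rw [← eV2] at hV2 hUV2
  rw [← eV4] at hV4 hUV4
  rw [← eU4] at hU4 hUV4
  have hid := tau_id l x1 x2 x3 x4 U2 V2 U4 V4 (by rw [eU2, eU4]; ring) (by rw [eV2, eV4]; ring)
  obtain ⟨τ, eτ⟩ : ∃ τ, τ = ((x1 + x3)^2 * x2 * x4 - l^2 * (x1 - x3)^2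
        - (((l + x4)^2 - x1 * x3) * ((l - x2)^2 - x1 * x3)
          + ((l + x2)^2 - x1 * x3) * ((l - x4)^2 - x1 * x3)) / 2) := ⟨_, rfl⟩
  rw [← eτ, ← hK2, ← hK4] at hid
  obtain ⟨d1, ed1⟩ : ∃ d1, d1 = l^2 - x1^2 - x2^2 := ⟨_, rfl⟩
  obtain ⟨d2, ed2⟩ : ∃ d2, d2 = l^2 - x2^2 - x3^2 := ⟨_, rfl⟩
  obtain ⟨d3, ed3⟩ : ∃ d3, d3 = l^2 - x3^2 - x4^2 := ⟨_, rfl⟩
  obtain ⟨d4, ed4⟩ : ∃ d4, d4 = l^2 - x4^2 - x1^2 := ⟨_, rfl⟩
  rw [← ed1, ← ed2] at hUV2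
  rw [← ed3, ← ed4] at hUV4
  rw [← ed1, ← ed2, ← ed3, ← ed4] at hid
  have hd1 : 0 ≤ d1 := by rw [ed1]; linarith
  have hd2 : 0 ≤ d2 := by rw [ed2]; linarith
  have hd3 : 0 ≤ d3 := by rw [ed3]; linarith
  have hd4 : 0 ≤ d4 := by rw [ed4]; linarith
  rw [mul_comm V4 U4] at hUV4
  obtain ⟨hτ0, hτ2⟩ := tau_lower hK2p hK4p hU2 hV2 hU4 hV4 hd1 hd2 hd3 hd4 hUV2 hUV4 hid
  -- the two upper bounds for τ
  obtain ⟨p, ep⟩ : ∃ p, p = (x1 + x3) / 2 := ⟨_, rfl⟩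
  obtain ⟨s, es⟩ : ∃ s, s = (x1 - x3) / 2 := ⟨_, rfl⟩
  obtain ⟨q, eq⟩ : ∃ q, q = (x2 + x4) / 2 := ⟨_, rfl⟩
  obtain ⟨r, er⟩ : ∃ r, r = (x2 - x4) / 2 := ⟨_, rfl⟩
  have hp : 0 < p := by rw [ep]; linarith
  have hq : 0 < q := by rw [eq]; linarith
  have hpq : p + q ≤ l := by rw [ep, eq]; linarith
  obtain ⟨hlpq, hs0, hr0⟩ := tau_upper (l := l) (p := p) (q := q) (s := s) (r := r)
    (d13 := d1 * d3) (d24 := d2 * d4) (τ := τ) hp hq hpq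
    (by rw [ed1, ed3, eτ, ep, es, eq, er]; ring)
    (by rw [ed2, ed4, eτ, ep, es, eq, er]; ring) hτ0 hτ2
  have hx13 : x1 = x3 := by rw [es] at hs0; linarith
  have hx24 : x2 = x4 := by rw [er] at hr0; linarith
  refine ⟨by rw [hlpq, ep, eq]; ring, hx13, hx24, ?_⟩
  subst hx13 hx24
  have hl' : l = x1 + x2 := by rw [hlpq, ep, eq]; ring
  clear hid hτ2 hτ0 eτ
  obtain ⟨c, ec⟩ : ∃ c, c = 2 * x1 * x2 := ⟨_, rfl⟩
  have hc : 0 < c := by rw [ec]; positivity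
  have hdd : d1 = c := by rw [ed1, hl', ec]; ring
  have hdd2 : d2 = c := by rw [ed2, hl', ec]; ring
  have hdd3 : d3 = c := by rw [ed3, hl', ec]; ring
  have hdd4 : d4 = c := by rw [ed4, hl', ec]; ring
  obtain ⟨m, em⟩ : ∃ m, m = K2 * a1 := ⟨_, rfl⟩
  obtain ⟨n, en⟩ : ∃ n, n = - K2 * a3 := ⟨_, rfl⟩
  have f1 : U2 = c + m := by rw [eU2, em, hK2, ec]; ring
  have f2 : V2 = c + n := by rw [eV2, en, hK2, ec]; ring
  have f3 : V4 = c - n := by rw [eV4, en, hK2, ec]; ring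
  have f4 : U4 = c - m := by rw [eU4, em, hK2, ec]; ring
  rw [hdd, hdd2, f1, f2] at hUV2
  rw [hdd3, hdd4, f3, f4] at hUV4
  rw [f1] at hU2
  rw [f2] at hV2
  rw [f3] at hV4
  rw [f4] at hU4
  obtain ⟨hm0, hn0⟩ := mn_zero hc hU2 hV2 hU4 hV4 hUV2 (by linarith [mul_comm (c - m) (c - n)])
  constructor
  · rw [em] at hm0
    rcases mul_eq_zero.mp hm0 with h | h
    · exact absurd h hK2p.ne'
    · exact h
  · rw [en] at hn0
    rcases mul_eq_zero.mp hn0 with h | h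
    · exact absurd (neg_eq_zero.mp h) hK2p.ne'
    · exact h

end Pool.Agent.Helper53_Quad
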