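import Mathlib

namespace Pool.Agent.Helper53_Quad

open Complex Set
open scoped Real ENNReal

/-- cross product -/
def cr (z w : ℂ) : ℝ := z.re * w.im - z.im * w.re

/-- rotated argument with branch cut in the fourth quadrant -/
noncomputable def A (w : ℂ) : ℝ := Complex.arg (w * Complex.exp (((-(3 * π / 4) : ℝ) : ℂ) * I))

/-- dot product with the unit vector of angle `ψ` -/
noncomputable def dt (ψ : ℝ) (w : ℂ) : ℝ := w.re * Real.cos ψ + w.im * Real.sin ψ

lemma A_mem (w : ℂ) : -π < A w ∧ A w ≤ π := ⟨Complex.neg_pi_lt_arg _, Complex.arg_le_pi _⟩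

lemma A_spec (w : ℂ) : w = (‖w‖ : ℂ) * Complex.exp (((3 * π / 4 + A w : ℝ) : ℂ) * I) := by
  have h := Complex.norm_mul_exp_arg_mul_I (w * Complex.exp (((-(3 * π / 4) : ℝ) : ℂ) * I))
  rw [norm_mul, Complex.norm_exp_ofReal_mul_I, mul_one] at h
  have h2 : Complex.exp (((3 * π / 4 + A w : ℝ) : ℂ) * I)
      = Complex.exp ((A w : ℂ) * I) * Complex.exp (((3 * π / 4 : ℝ) : ℂ) * I) := by
    rw [← Complex.exp_add]; congr 1; push_cast; ring
  rw [h2, ← mul_assoc]
  unfold A
  rw [h, mul_assoc, ← Complex.exp_add]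
  have : ((-(3 * π / 4) : ℝ) : ℂ) * I + ((3 * π / 4 : ℝ) : ℂ) * I = 0 := by push_cast; ring
  rw [this, Complex.exp_zero, mul_one]

lemma A_re (w : ℂ) : w.re = ‖w‖ * Real.cos (3 * π / 4 + A w) := by
  have h := congrArg Complex.re (A_spec w)
  rw [Complex.re_ofReal_mul, Complex.exp_ofReal_mul_I_re] at h
  exact h

lemma A_im (w : ℂ) : w.im = ‖w‖ * Real.sin (3 * π / 4 + A w) := by
  have h := congrArg Complex.im (A_spec w)
  rw [Complex.im_ofReal_mul, Complex.exp_ofReal_mul_I_im] at h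
  exact h

lemma cr_eq (z w : ℂ) : cr z w = ‖z‖ * ‖w‖ * Real.sin (A w - A z) := by
  unfold cr
  rw [show A w - A z = (3 * π / 4 + A w) - (3 * π / 4 + A z) by ring, Real.sin_sub,
    A_re z, A_im z, A_re w, A_im w]
  have : ∀ z : ℂ, ‖(‖z‖ : ℝ)‖ = ‖z‖ := fun z => norm_norm z
  rw [← A_re z, ← A_im z, ← A_re w, ← A_im w]
  nth_rewrite 1 [A_re z, A_im w]
  nth_rewrite 1 [A_im z, A_re w]
  ring

lemma dt_eq (ψ : ℝ) (w : ℂ) : dt ψ w = ‖w‖ * Real.cos (3 * π / 4 + A w - ψ) := by
  unfold dt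
  rw [Real.cos_sub]
  nth_rewrite 1 [A_re w, A_im w]
  ring

/-- a nonzero vector in the closed first quadrant -/
lemma A_quadrant {a : ℂ} (h0 : a ≠ 0) (hre : 0 ≤ a.re) (him : 0 ≤ a.im) :
    -(3 * π / 4) ≤ A a ∧ A a ≤ -(π / 4) := by
  have hn : 0 < ‖a‖ := norm_pos_iff.mpr h0
  have hc : 0 ≤ Real.cos (3 * π / 4 + A a) := by
    have := A_re a
    rw [this] at hre
    exact nonneg_of_mul_nonneg_right hre hn
  have hs : 0 ≤ Real.sin (3 * π / 4 + A a) := by
    have := A_im a
    rw [this] at him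
    exact nonneg_of_mul_nonneg_right him hn
  obtain ⟨h1, h2⟩ := A_mem a
  have hpi := Real.pi_pos
  constructor
  · by_contra hcon
    push Not at hcon
    -- 3π/4 + A ∈ (-π/4, 0) sin negative
    have : Real.sin (3 * π / 4 + A a) < 0 :=
      Real.sin_neg_of_neg_of_neg_pi_lt (by linarith) (by linarith)
    linarith
  · by_contra hcon
    push Not at hcon
    rcases le_or_gt (3 * π / 4 + A a) (π + π/2) with h | h
    · rcases lt_or_ge (3 * π / 4 + A a) (π + π / 2) with h' | h'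
      · have : Real.cos (3 * π / 4 + A a) < 0 :=
          Real.cos_neg_of_pi_div_two_lt_of_lt (by linarith) (by linarith)
        linarith
      · have he : 3 * π / 4 + A a = π / 2 + π := by linarith
        have : Real.sin (3 * π / 4 + A a) = -1 := by
          rw [he, Real.sin_add_pi, Real.sin_pi_div_two]
        linarith
    · have : Real.sin (3 * π / 4 + A a) < 0 := by
        have e : 3 * π / 4 + A a = (3 * π / 4 + A a - 2 * π) + 2 * π := by ring
        rw [e, Real.sin_add_two_pi]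
        exact Real.sin_neg_of_neg_of_neg_pi_lt (by linarith) (by linarith)
      linarith

/-- if `a` is in the closed first quadrant and `w` is to its left, then `A w` is in `(A a, A a + π)` -/
lemma A_left {a w : ℂ} (h0 : a ≠ 0) (hre : 0 ≤ a.re) (him : 0 ≤ a.im) (h : 0 < cr a w) :
    A a < A w ∧ A w < A a + π := by
  obtain ⟨h1, h2⟩ := A_quadrant h0 hre him
  obtain ⟨h3, h4⟩ := A_mem w
  have hpi := Real.pi_pos
  rw [cr_eq] at h
  have hs : 0 < Real.sin (A w - A a) := by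
    by_contra hcon
    push Not at hcon
    have := mul_nonpos_of_nonneg_of_nonpos (by positivity : 0 ≤ ‖a‖ * ‖w‖) hcon
    linarith
  constructor
  · by_contra hcon
    push Not at hcon
    have : Real.sin (A w - A a) ≤ 0 :=
      Real.sin_nonpos_of_nonpos_of_neg_pi_le (by linarith) (by linarith)
    linarith
  · by_contra hcon
    push Not at hcon
    have e : A w - A a = (A w - A a - 2 * π) + 2 * π := by ring
    have : Real.sin (A w - A a) ≤ 0 := by
      rw [e, Real.sin_add_two_pi]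
      exact Real.sin_nonpos_of_nonpos_of_neg_pi_le (by linarith) (by linarith)
    linarith

/-- monotonicity of the lifted argument -/
lemma A_mono {a w w' : ℂ} (h0 : a ≠ 0) (hre : 0 ≤ a.re) (him : 0 ≤ a.im)
    (h : 0 < cr a w) (h' : 0 < cr a w') (hc : 0 ≤ cr w w') : A w ≤ A w' := by
  obtain ⟨h1, h2⟩ := A_left h0 hre him h
  obtain ⟨h3, h4⟩ := A_left h0 hre him h'
  by_contra hcon
  push Not at hcon
  have hs : Real.sin (A w' - A w) < 0 :=
    Real.sin_neg_of_neg_of_neg_pi_lt (by linarith) (by linarith)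
  rw [cr_eq] at hc
  have hw : w ≠ 0 := by
    rintro rfl
    simp [cr] at h
  have hw' : w' ≠ 0 := by
    rintro rfl
    simp [cr] at h'
  have : 0 < ‖w‖ * ‖w'‖ := mul_pos (norm_pos_iff.mpr hw) (norm_pos_iff.mpr hw')
  have := mul_neg_of_pos_of_neg this hs
  linarith

/-- cone estimate -/
lemma dt_ge {w : ℂ} {α β : ℝ} (h1 : α ≤ A w) (h2 : A w ≤ β) (hb : β - α ≤ 2 * π) :
    ‖w‖ * Real.cos ((β - α) / 2) ≤ dt (3 * π / 4 + (α + β) / 2) w := by
  rw [dt_eq]
  apply mul_le_mul_of_nonneg_left _ (norm_nonneg _)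
  have e : 3 * π / 4 + A w - (3 * π / 4 + (α + β) / 2) = A w - (α + β) / 2 := by ring
  rw [e, ← Real.cos_abs (A w - (α + β) / 2)]
  apply Real.cos_le_cos_of_nonneg_of_le_pi (abs_nonneg _) (by linarith)
  rw [abs_le]
  constructor <;> linarith

/-- tilted direction at a point of the positive real axis -/
lemma A_tilt {t : ℝ} (ht : t ∈ Set.Ioo (-(π/2)) (π/2)) :
    A (Real.sin t + Real.cos t * I) = -(π / 4) - t := by
  unfold A
  have e : ((Real.sin t : ℂ) + Real.cos t * I) = Complex.exp (((π / 2 - t : ℝ) : ℂ) * I) := by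
    rw [Complex.exp_mul_I, ← Complex.ofReal_cos, ← Complex.ofReal_sin, Real.cos_pi_div_two_sub,
      Real.sin_pi_div_two_sub]
  rw [e, ← Complex.exp_add]
  have e2 : ((π / 2 - t : ℝ) : ℂ) * I + ((-(3 * π / 4) : ℝ) : ℂ) * I
      = ((-(π/4) - t : ℝ) : ℂ) * I := by push_cast; ring
  rw [e2, Complex.arg_exp_mul_I, toIocMod_eq_iff]
  refine ⟨⟨by linarith [ht.2, Real.pi_pos], by linarith [ht.1, Real.pi_pos]⟩, 0, by simp⟩

/-- tilted direction at a point of the positive imaginary axis -/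
lemma A_tilt' {t : ℝ} (ht : t ∈ Set.Ioo (-(π/2)) (π/2)) :
    A (I * (Real.sin t + Real.cos t * I)) = π / 4 - t := by
  unfold A
  have e : I * ((Real.sin t : ℂ) + Real.cos t * I) = Complex.exp (((π - t : ℝ) : ℂ) * I) := by
    rw [Complex.exp_mul_I, ← Complex.ofReal_cos, ← Complex.ofReal_sin, Real.cos_pi_sub,
      Real.sin_pi_sub]
    push_cast
    have := Complex.I_mul_I
    linear_combination (Complex.cos t) * this
  rw [e, ← Complex.exp_add]
  have e2 : ((π - t : ℝ) : ℂ) * I + ((-(3 * π / 4) : ℝ) : ℂ) * I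
      = ((π/4 - t : ℝ) : ℂ) * I := by push_cast; ring
  rw [e2, Complex.arg_exp_mul_I, toIocMod_eq_iff]
  refine ⟨⟨by linarith [ht.2, Real.pi_pos], by linarith [ht.1, Real.pi_pos]⟩, 0, by simp⟩

/-- length bound from a directional estimate -/
lemma eVar_le {Γ : ℝ → ℂ} {s0 s1 b ψ : ℝ} (hs : s0 ≤ s1) (hb : 0 < Real.cos b)
    (h : ∀ s ∈ Icc s0 s1, ∀ t ∈ Icc s0 s1, s < t →
      ‖Γ t - Γ s‖ * Real.cos b ≤ dt ψ (Γ t - Γ s)) :
    eVariationOn Γ (Icc s0 s1) ≤ ENNReal.ofReal (dt ψ (Γ s1 - Γ s0) / Real.cos b) := by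
  have hdt : ∀ z w, dt ψ (z - w) = dt ψ z - dt ψ w := by
    intro z w; unfold dt; rw [Complex.sub_re, Complex.sub_im]; ring
  set g : ℝ → ℝ := fun t => dt ψ (Γ t) / Real.cos b with hg
  have hmono : MonotoneOn g (Icc s0 s1) := by
    intro s hs' t ht hst
    rcases hst.lt_or_eq with hlt | heq
    · have := h s hs' t ht hlt
      rw [hdt] at this
      have h2 : 0 ≤ ‖Γ t - Γ s‖ * Real.cos b := by positivity
      simp only [hg]
      rw [div_le_div_iff_of_pos_right hb]
      linarith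
    · rw [heq]
  have hle : ∀ s ∈ Icc s0 s1, ∀ t ∈ Icc s0 s1, s ≤ t → edist (Γ t) (Γ s) ≤ edist (g t) (g s) := by
    intro s hs' t ht hst
    rw [edist_dist, edist_dist]
    apply ENNReal.ofReal_le_ofReal
    rcases hst.lt_or_eq with hlt | heq
    · have := h s hs' t ht hlt
      rw [hdt] at this
      rw [dist_eq_norm, Real.dist_eq, abs_of_nonneg (by linarith [hmono hs' ht hst])]
      simp only [hg]
      rw [← sub_div, le_div_iff₀ hb]
      exact this
    · rw [heq]; simp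
  have h1 : eVariationOn Γ (Icc s0 s1) ≤ eVariationOn g (Icc s0 s1) := by
    apply iSup_le
    rintro ⟨n, ⟨u, hu, us⟩⟩
    calc ∑ i ∈ Finset.range n, edist (Γ (u (i + 1))) (Γ (u i))
        ≤ ∑ i ∈ Finset.range n, edist (g (u (i + 1))) (g (u i)) :=
          Finset.sum_le_sum fun i _ => hle _ (us i) _ (us (i+1)) (hu (Nat.le_succ i))
      _ ≤ eVariationOn g (Icc s0 s1) := eVariationOn.sum_le hu us
  have h2 := hmono.eVariationOn_eq (left_mem_Icc.mpr hs) (right_mem_Icc.mpr hs)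
  rw [inter_self] at h2
  refine h1.trans (h2.le.trans (le_of_eq ?_))
  simp only [hg]
  rw [hdt, sub_div]

end Pool.Agent.Helper53_Quad
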