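import Mathlib
import Pool.Agent.Helper53_Quad.Geo

namespace Pool.Agent.Helper53_Quad

open Complex Set
open scoped Real ENNReal

/-- A normalized configuration: the chords lie along the coordinate axes of `ℂ`. -/
structure Cfg (F : Set ℂ) (Γ : ℝ → ℂ) (t1 t2 t3 t4 x1 x2 x3 x4 : ℝ) (L : ℝ≥0∞) : Prop where
  conv : Convex ℝ F
  comp : IsCompact F
  nint : (interior F).Nonempty
  cont : Continuous Γ
  per : ∀ t, Γ (t + 1) = Γ t
  inj : ∀ s t, s < t → t < s + 1 → Γ s ≠ Γ t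
  rng : Set.range Γ = frontier F
  h12 : t1 < t2
  h23 : t2 < t3
  h34 : t3 < t4
  h41 : t4 < t1 + 1
  e1 : Γ t1 = x1
  e2 : Γ t2 = x2 * I
  e3 : Γ t3 = -x3
  e4 : Γ t4 = -x4 * I
  p13 : 0 < x1 + x3
  p24 : 0 < x2 + x4
  v1 : eVariationOn Γ (Icc t1 t2) = L
  v2 : eVariationOn Γ (Icc t2 t3) = L
  v3 : eVariationOn Γ (Icc t3 t4) = L
  v4 : eVariationOn Γ (Icc t4 (t1 + 1)) = L

/-- multiplication by `-I` as a linear isometry -/
noncomputable def rotE : ℂ ≃ₗᵢ[ℝ] ℂ := rotation (Circle.exp (-(π / 2)))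

lemma rotE_apply (z : ℂ) : rotE z = -I * z := by
  have h : ((Circle.exp (-(π / 2)) : Circle) : ℂ) = -I := by
    rw [Circle.coe_exp]
    have e : ((-(π / 2) : ℝ) : ℂ) * I = -(π / 2 * I) := by push_cast; ring
    rw [e, Complex.exp_neg, Complex.exp_pi_div_two_mul_I, Complex.inv_I]
  rw [← h]
  rfl

lemma eVar_isometry {α E E' : Type*} [LinearOrder α] [PseudoEMetricSpace E] [PseudoEMetricSpace E']
    {T : E → E'} (hT : Isometry T) (f : α → E) (s : Set α) :
    eVariationOn (fun x => T (f x)) s = eVariationOn f s := by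
  unfold eVariationOn
  simp only [hT.edist_eq]

lemma eVar_shift {E : Type*} [PseudoEMetricSpace E] {f : ℝ → E} (hf : ∀ t, f (t + 1) = f t)
    (a b : ℝ) : eVariationOn f (Icc (a + 1) (b + 1)) = eVariationOn f (Icc a b) := by
  have h := eVariationOn.comp_eq_of_monotoneOn f (t := Icc a b) (fun t => t + 1)
    (fun x _ y _ h => by simpa using h)
  rw [show (fun t : ℝ => t + 1) '' Icc a b = Icc (a + 1) (b + 1) by simp] at h
  rw [← h]
  congr 1
  funext t
  exact hf t

namespace Cfg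

variable {F : Set ℂ} {Γ : ℝ → ℂ} {t1 t2 t3 t4 x1 x2 x3 x4 : ℝ} {L : ℝ≥0∞}

lemma rot (h : Cfg F Γ t1 t2 t3 t4 x1 x2 x3 x4 L) :
    Cfg (rotE '' F) (fun t => rotE (Γ t)) t2 t3 t4 (t1 + 1) x2 x3 x4 x1 L where
  conv := h.conv.linear_image rotE.toLinearEquiv.toLinearMap
  comp := h.comp.image rotE.continuous
  nint := by
    have := rotE.toHomeomorph.image_interior F
    have h2 : interior (rotE '' F) = rotE '' interior F := this.symm
    rw [h2]
    exact h.nint.image _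
  cont := rotE.continuous.comp h.cont
  per := fun t => by rw [h.per]
  inj := fun s t hst hts heq => h.inj s t hst hts (rotE.injective heq)
  rng := by
    have := rotE.toHomeomorph.image_frontier F
    have h2 : frontier (rotE '' F) = rotE '' frontier F := this.symm
    rw [h2, ← h.rng, ← range_comp]
    rfl
  h12 := h.h23
  h23 := h.h34
  h34 := h.h41
  h41 := by linarith [h.h12]
  e1 := by rw [h.e2, rotE_apply]; linear_combination (-(x2 : ℂ)) * Complex.I_mul_I
  e2 := by rw [h.e3, rotE_apply]; ring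
  e3 := by rw [h.e4, rotE_apply]; linear_combination ((x4 : ℂ)) * Complex.I_mul_I
  e4 := by rw [h.per, h.e1, rotE_apply]; ring
  p13 := h.p24
  p24 := by linarith [h.p13]
  v1 := by rw [eVar_isometry rotE.isometry]; exact h.v2
  v2 := by rw [eVar_isometry rotE.isometry]; exact h.v3
  v3 := by rw [eVar_isometry rotE.isometry]; exact h.v4
  v4 := by rw [eVar_isometry rotE.isometry, eVar_shift h.per]; exact h.v1

lemma closed (h : Cfg F Γ t1 t2 t3 t4 x1 x2 x3 x4 L) : IsClosed F := h.comp.isClosed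

lemma fr (h : Cfg F Γ t1 t2 t3 t4 x1 x2 x3 x4 L) (t : ℝ) : Γ t ∈ frontier F := by
  rw [← h.rng]; exact mem_range_self t

lemma memF (h : Cfg F Γ t1 t2 t3 t4 x1 x2 x3 x4 L) (t : ℝ) : Γ t ∈ F :=
  h.closed.frontier_subset (h.fr t)

lemma not_int (h : Cfg F Γ t1 t2 t3 t4 x1 x2 x3 x4 L) (t : ℝ) : Γ t ∉ interior F := by
  have := h.fr t
  rw [h.closed.frontier_eq] at this
  exact this.2

lemma edist_le_arc (h : Cfg F Γ t1 t2 t3 t4 x1 x2 x3 x4 L) :
    edist (Γ t1) (Γ t2) ≤ L ∧ edist (Γ t2) (Γ t3) ≤ L ∧ edist (Γ t3) (Γ t4) ≤ L ∧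
    edist (Γ t4) (Γ t1) ≤ L := by
  refine ⟨?_, ?_, ?_, ?_⟩
  · rw [← h.v1]
    exact eVariationOn.edist_le Γ (left_mem_Icc.mpr h.h12.le) (right_mem_Icc.mpr h.h12.le)
  · rw [← h.v2]
    exact eVariationOn.edist_le Γ (left_mem_Icc.mpr h.h23.le) (right_mem_Icc.mpr h.h23.le)
  · rw [← h.v3]
    exact eVariationOn.edist_le Γ (left_mem_Icc.mpr h.h34.le) (right_mem_Icc.mpr h.h34.le)
  · rw [← h.v4, ← h.per t1]
    exact eVariationOn.edist_le Γ (left_mem_Icc.mpr h.h41.le) (right_mem_Icc.mpr h.h41.le)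

/-- The image of a connected set under the inverse of an injective parametrization. -/
lemma preimage_conn {a b : ℝ} (hab : a ≤ b) (hb : b < a + 1)
    (h : Cfg F Γ t1 t2 t3 t4 x1 x2 x3 x4 L) {S : Set ℂ} (hS : IsPreconnected S)
    (hSub : S ⊆ Γ '' Icc a b) (ha : Γ a ∈ S) (hb' : Γ b ∈ S) :
    ∀ t ∈ Icc a b, Γ t ∈ S := by
  let g : Icc a b → ℂ := fun t => Γ t
  have hinj : Function.Injective g := by
    intro s t hst
    by_contra hne
    have hne' : (s : ℝ) ≠ t := fun h => hne (Subtype.ext h)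
    rcases lt_or_gt_of_ne hne' with hlt | hlt
    · exact h.inj s t hlt (by linarith [s.2.1, t.2.2]) hst
    · exact h.inj t s hlt (by linarith [t.2.1, s.2.2]) hst.symm
  have hcont : Continuous g := h.cont.comp continuous_subtype_val
  have hemb : Topology.IsClosedEmbedding g := hcont.isClosedEmbedding hinj
  have hpre : IsPreconnected (g ⁻¹' S) := by
    have h1 : g '' (g ⁻¹' S) = S := by
      apply image_preimage_eq_of_subset
      intro z hz
      obtain ⟨t, ht, rfl⟩ := hSub hz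
      exact ⟨⟨t, ht⟩, rfl⟩
    rw [← hemb.isInducing.isPreconnected_image, h1]
    exact hS
  have hpre2 : IsPreconnected (Subtype.val '' (g ⁻¹' S) : Set ℝ) :=
    hpre.image _ continuous_subtype_val.continuousOn
  intro t ht
  have hmem : t ∈ (Subtype.val '' (g ⁻¹' S) : Set ℝ) := by
    apply hpre2.Icc_subset (a := a) (b := b) _ _ ht
    · exact ⟨⟨a, left_mem_Icc.mpr hab⟩, ha, rfl⟩
    · exact ⟨⟨b, right_mem_Icc.mpr hab⟩, hb', rfl⟩
  obtain ⟨s, hs, rfl⟩ := hmem
  exact hs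

/-- the real segment between the endpoints of the first chord -/
lemma seg_conn : IsPreconnected ((fun r : ℝ => (r : ℂ)) '' Icc (-x3) x1) :=
  isPreconnected_Icc.image _ Complex.continuous_ofReal.continuousOn

/-- The first chord cannot be contained in the arc `[t1,t3]`. -/
lemma no_arc_segment (h : Cfg F Γ t1 t2 t3 t4 x1 x2 x3 x4 L) :
    ¬ ((fun r : ℝ => (r : ℂ)) '' Ioo (-x3) x1 ⊆ Γ '' Icc t1 t3) := by
  intro hsub
  have hlt : -x3 < x1 := by linarith [h.p13]
  have h13 : t1 < t3 := h.h12.trans h.h23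
  have h31 : t3 < t1 + 1 := h.h34.trans h.h41
  have hsub' : (fun r : ℝ => (r : ℂ)) '' Icc (-x3) x1 ⊆ Γ '' Icc t1 t3 := by
    rintro _ ⟨r, hr, rfl⟩
    rcases eq_or_lt_of_le hr.1 with h1 | h1
    · exact ⟨t3, right_mem_Icc.mpr h13.le, by rw [h.e3, ← h1]; push_cast; rfl⟩
    rcases eq_or_lt_of_le hr.2 with h2 | h2
    · exact ⟨t1, left_mem_Icc.mpr h13.le, by rw [h.e1, h2]⟩
    exact hsub ⟨r, ⟨h1, h2⟩, rfl⟩
  have hall := preimage_conn h13.le h31 h (seg_conn (x1 := x1) (x3 := x3)) hsub'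
    ⟨x1, right_mem_Icc.mpr hlt.le, h.e1.symm⟩
    ⟨-x3, left_mem_Icc.mpr hlt.le, by rw [h.e3]; push_cast; rfl⟩
  -- `Γ` is real valued on `[t1,t3]`
  have hre : ∀ t ∈ Icc t1 t3, Γ t = ((Γ t).re : ℂ) := by
    intro t ht
    obtain ⟨r, _, hr⟩ := hall t ht
    simp only at hr
    rw [← hr]; simp
  have hinj : InjOn (fun t => (Γ t).re) (Icc t1 t3) := by
    intro s hs t ht hst
    simp only at hst
    by_contra hne
    have hΓ : Γ s = Γ t := by rw [hre s hs, hre t ht, hst]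
    rcases lt_or_gt_of_ne hne with hlt' | hlt'
    · exact h.inj s t hlt' (by linarith [hs.1, ht.2]) hΓ
    · exact h.inj t s hlt' (by linarith [ht.1, hs.2]) hΓ.symm
  have hcont : ContinuousOn (fun t => (Γ t).re) (Icc t1 t3) :=
    (Complex.continuous_re.comp h.cont).continuousOn
  have hanti : StrictAntiOn (fun t => (Γ t).re) (Icc t1 t3) := by
    apply ContinuousOn.strictAntiOn_of_injOn_Icc h13.le _ hcont hinj
    simp only [h.e1, h.e3]
    simp
    linarith
  have hvar : eVariationOn Γ (Icc t1 t3) ≤ ENNReal.ofReal (x1 + x3) := by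
    have h1 : eVariationOn Γ (Icc t1 t3) = eVariationOn (fun t => -(Γ t).re) (Icc t1 t3) := by
      unfold eVariationOn
      congr 1
      funext ⟨n, u, hu, us⟩
      apply Finset.sum_congr rfl
      intro i _
      simp only
      rw [edist_neg_neg]
      conv_lhs => rw [hre _ (us (i+1)), hre _ (us i)]
      exact Complex.isometry_ofReal.edist_eq _ _
    have hm : MonotoneOn (fun t => -(Γ t).re) (Icc t1 t3) := by
      intro s hs t ht hst
      have := hanti.antitoneOn hs ht hst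
      simp only at this ⊢
      linarith
    have h2 := hm.eVariationOn_eq (left_mem_Icc.mpr h13.le) (right_mem_Icc.mpr h13.le)
    rw [inter_self] at h2
    rw [h1, h2]
    apply ENNReal.ofReal_le_ofReal
    rw [h.e1, h.e3]
    simp
    linarith
  have hvar2 : L + L ≤ ENNReal.ofReal (x1 + x3) := by
    have h1 := eVariationOn.Icc_add_Icc Γ (s := univ) h.h12.le h.h23.le (mem_univ _)
    simp only [univ_inter] at h1
    rw [h.v1, h.v2] at h1
    rw [h1]; exact hvar
  obtain ⟨-, -, d3, d4⟩ := h.edist_le_arc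
  have hsum : edist (Γ t3) (Γ t4) + edist (Γ t4) (Γ t1) ≤ ENNReal.ofReal (x1 + x3) :=
    (add_le_add d3 d4).trans hvar2
  rw [edist_dist, edist_dist, ← ENNReal.ofReal_add dist_nonneg dist_nonneg,
    ENNReal.ofReal_le_ofReal_iff h.p13.le, h.e3, h.e4, h.e1, dist_eq_norm, dist_eq_norm] at hsum
  -- each norm is at least the modulus of the real part
  have n1 : |x3| ≤ ‖(-(x3 : ℂ) - (-(x4 : ℂ) * I))‖ := by
    have := Complex.abs_re_le_norm (-(x3 : ℂ) - (-(x4 : ℂ) * I))
    simpa using this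
  have n2 : |x1| ≤ ‖(-(x4 : ℂ) * I - (x1 : ℂ))‖ := by
    have := Complex.abs_re_le_norm (-(x4 : ℂ) * I - (x1 : ℂ))
    simpa using this
  have a1 := le_abs_self x1
  have a3 := le_abs_self x3
  have hx1 : |x1| = x1 := by linarith
  have hx3 : |x3| = x3 := by linarith
  have hx1' : 0 ≤ x1 := by rw [← hx1]; exact abs_nonneg _
  have hx3' : 0 ≤ x3 := by rw [← hx3]; exact abs_nonneg _
  have m1 : ‖(-(x3 : ℂ) - (-(x4 : ℂ) * I))‖ = x3 := by linarith
  have hx4 : x4 = 0 := by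
    have hh : ‖(-(x3 : ℂ) - (-(x4 : ℂ) * I))‖^2 = x3^2 := by rw [m1]
    rw [← Complex.normSq_eq_norm_sq, Complex.normSq_apply] at hh
    simp at hh
    nlinarith [sq_nonneg x4]
  have h0 : Γ t4 = ((0 : ℝ) : ℂ) := by rw [h.e4, hx4]; simp
  obtain ⟨t, ht, hΓt⟩ := hsub' ⟨0, ⟨by linarith, hx1'⟩, rfl⟩
  simp only at hΓt
  exact h.inj t t4 (lt_of_le_of_lt ht.2 h.h34) (by linarith [ht.1, h.h41]) (by rw [hΓt, h0])

lemma mem_arcs (h : Cfg F Γ t1 t2 t3 t4 x1 x2 x3 x4 L) {z : ℂ} (hz : z ∈ frontier F) :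
    ∃ t ∈ Ico t1 (t1 + 1), Γ t = z := by
  rw [← h.rng] at hz
  obtain ⟨s, rfl⟩ := hz
  have hp : Function.Periodic Γ 1 := h.per
  obtain ⟨t, ht, hst⟩ := hp.exists_mem_Ico one_pos s t1
  exact ⟨t, ht, hst.symm⟩

/-- The interior of `F` meets the first chord. -/
lemma chord_interior (h : Cfg F Γ t1 t2 t3 t4 x1 x2 x3 x4 L) :
    ∃ r ∈ Ioo (-x3) x1, (r : ℂ) ∈ interior F := by
  by_contra hcon
  push Not at hcon
  have hlt : -x3 < x1 := by linarith [h.p13]
  have h13 : t1 < t3 := h.h12.trans h.h23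
  have h31 : t3 < t1 + 1 := h.h34.trans h.h41
  have hF : ∀ r ∈ Ioo (-x3) x1, (r : ℂ) ∈ F := by
    intro r hr
    have m1 : ((x1 : ℝ) : ℂ) ∈ F := by have := h.memF t1; rwa [h.e1] at this
    have m3 : ((-x3 : ℝ) : ℂ) ∈ F := by
      have := h.memF t3
      rw [h.e3] at this; push_cast; exact this
    have hconv := h.conv m3 m1 (a := (x1 - r) / (x1 + x3)) (b := (r + x3) / (x1 + x3))
      (div_nonneg (by linarith [hr.2]) h.p13.le) (div_nonneg (by linarith [hr.1]) h.p13.le)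
      (by have := h.p13.ne'; field_simp; ring)
    have e : ((x1 - r) / (x1 + x3)) • ((-x3 : ℝ) : ℂ) + ((r + x3) / (x1 + x3)) • ((x1 : ℝ) : ℂ)
        = (r : ℂ) := by
      rw [Complex.real_smul, Complex.real_smul, ← Complex.ofReal_mul, ← Complex.ofReal_mul,
        ← Complex.ofReal_add]
      congr 1
      have := h.p13.ne'
      field_simp
      ring
    rwa [e] at hconv
  have hfr : ∀ r ∈ Ioo (-x3) x1, (r : ℂ) ∈ frontier F := by
    intro r hr
    rw [h.closed.frontier_eq]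
    exact ⟨hF r hr, hcon r hr⟩
  set S : Set ℂ := (fun r : ℝ => (r : ℂ)) '' Ioo (-x3) x1 with hS
  have hSc : IsPreconnected S :=
    isPreconnected_Ioo.image _ Complex.continuous_ofReal.continuousOn
  have hAcl : IsClosed (Γ '' Icc t1 t3) := (isCompact_Icc.image h.cont).isClosed
  have hBcl : IsClosed (Γ '' Icc t3 (t1 + 1)) := (isCompact_Icc.image h.cont).isClosed
  have hcov : S ⊆ Γ '' Icc t1 t3 ∪ Γ '' Icc t3 (t1 + 1) := by
    rintro _ ⟨r, hr, rfl⟩
    obtain ⟨t, ht, hΓt⟩ := h.mem_arcs (hfr r hr)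
    rcases le_total t t3 with h1 | h1
    · exact Or.inl ⟨t, ⟨ht.1, h1⟩, hΓt⟩
    · exact Or.inr ⟨t, ⟨h1, ht.2.le⟩, hΓt⟩
  have hdis : ¬ (S ∩ (Γ '' Icc t1 t3 ∩ Γ '' Icc t3 (t1 + 1))).Nonempty := by
    rintro ⟨_, ⟨r, hr, rfl⟩, ⟨s, hs, hs'⟩, ⟨t, ht, ht'⟩⟩
    simp only at hs' ht'
    have hst : Γ s = Γ t := by rw [hs', ht']
    rcases eq_or_lt_of_le (hs.2.trans ht.1) with heq | hlt'
    · have : s = t3 := le_antisymm hs.2 (by rw [heq]; exact ht.1)
      rw [this, h.e3] at hs'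
      have := congrArg Complex.re hs'
      simp at this
      linarith [hr.1]
    · rcases lt_or_ge t (s + 1) with h1 | h1
      · exact h.inj s t hlt' h1 hst
      · have : s = t1 := le_antisymm (by linarith [ht.2]) hs.1
        rw [this, h.e1] at hs'
        have := congrArg Complex.re hs'
        simp at this
        linarith [hr.2]
  have hAorB : S ⊆ Γ '' Icc t1 t3 ∨ S ⊆ Γ '' Icc t3 (t1 + 1) := by
    by_contra hno
    push Not at hno
    obtain ⟨hnA, hnB⟩ := hno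
    rw [not_subset] at hnA hnB
    obtain ⟨a, haS, haA⟩ := hnA
    obtain ⟨b, hbS, hbB⟩ := hnB
    have haB : a ∈ Γ '' Icc t3 (t1 + 1) := (hcov haS).resolve_left haA
    have hbA : b ∈ Γ '' Icc t1 t3 := (hcov hbS).resolve_right hbB
    exact hdis (isPreconnected_closed_iff.mp hSc _ _ hAcl hBcl hcov ⟨b, hbS, hbA⟩ ⟨a, haS, haB⟩)
  rcases hAorB with hA | hB
  · exact h.no_arc_segment hA
  · -- apply the first case to the half turn
    apply h.rot.rot.no_arc_segment
    rintro _ ⟨r, hr, rfl⟩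
    obtain ⟨t, ht, hΓt⟩ := hB ⟨-r, ⟨by linarith [hr.2], by linarith [hr.1]⟩, rfl⟩
    refine ⟨t, ht, ?_⟩
    simp only at hΓt
    simp only [rotE_apply, hΓt]
    push_cast
    linear_combination (-(r : ℂ)) * Complex.I_mul_I

/-- The arcs `(t1,t3)` and `(t3,t1+1)` are strictly above resp. below the real axis. -/
lemma side (h : Cfg F Γ t1 t2 t3 t4 x1 x2 x3 x4 L) :
    0 < x2 ∧ 0 < x4 ∧ (∀ t ∈ Ioo t1 t3, 0 < (Γ t).im) ∧ (∀ t ∈ Ioo t3 (t1 + 1), (Γ t).im < 0) := by
  obtain ⟨r0, hr0, hr0int⟩ := h.chord_interior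
  have h13 : t1 < t3 := h.h12.trans h.h23
  have h31 : t3 < t1 + 1 := h.h34.trans h.h41
  -- interior points of segments
  have key : ∀ a b : ℝ, (a : ℂ) ∈ interior F → (b : ℂ) ∈ F → ∀ c : ℝ,
      (a < c ∧ c < b ∨ b < c ∧ c < a) → (c : ℂ) ∈ interior F := by
    intro a b ha hb c hc
    apply h.conv.openSegment_interior_self_subset_interior ha hb
    have hab : b - a ≠ 0 := by rcases hc with ⟨h1, h2⟩ | ⟨h1, h2⟩ <;> intro h0 <;> linarith
    have hpos : 0 < (b - c) / (b - a) ∧ 0 < (c - a) / (b - a) := by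
      rcases hc with ⟨h1, h2⟩ | ⟨h1, h2⟩
      · exact ⟨div_pos (by linarith) (by linarith), div_pos (by linarith) (by linarith)⟩
      · exact ⟨div_pos_of_neg_of_neg (by linarith) (by linarith),
          div_pos_of_neg_of_neg (by linarith) (by linarith)⟩
    refine ⟨(b - c) / (b - a), (c - a) / (b - a), hpos.1, hpos.2, by field_simp; ring, ?_⟩
    rw [Complex.real_smul, Complex.real_smul, ← Complex.ofReal_mul, ← Complex.ofReal_mul,
      ← Complex.ofReal_add]
    congr 1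
    field_simp
    ring
  have hne : ∀ t, t1 < t → t < t1 + 1 → t ≠ t3 → (Γ t).im ≠ 0 := by
    intro t ht ht' htne him
    have hΓ : Γ t = (((Γ t).re : ℝ) : ℂ) := by
      apply Complex.ext <;> simp [him]
    obtain ⟨r, hr⟩ : ∃ r, r = (Γ t).re := ⟨_, rfl⟩
    rw [← hr] at hΓ
    have n0 : (r : ℂ) ∉ interior F := by rw [← hΓ]; exact h.not_int t
    have m0 : (r : ℂ) ∈ F := by rw [← hΓ]; exact h.memF t
    have n1 : (x1 : ℂ) ∉ interior F := by rw [← h.e1]; exact h.not_int t1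
    have m1 : (x1 : ℂ) ∈ F := by rw [← h.e1]; exact h.memF t1
    have n3 : ((-x3 : ℝ) : ℂ) ∉ interior F := by
      have := h.not_int t3; rw [h.e3] at this; push_cast; exact this
    have m3 : ((-x3 : ℝ) : ℂ) ∈ F := by
      have := h.memF t3; rw [h.e3] at this; push_cast; exact this
    have hr1 : r ≠ x1 := by
      intro heq
      exact h.inj t1 t ht ht' (by rw [h.e1, hΓ, heq])
    have hr3 : r ≠ -x3 := by
      intro heq
      have : Γ t3 = Γ t := by rw [h.e3, hΓ, heq]; push_cast; rfl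
      rcases lt_or_gt_of_ne htne with hlt | hlt
      · exact h.inj t t3 hlt (by linarith) this.symm
      · exact h.inj t3 t hlt (by linarith) this
    rcases lt_trichotomy r r0 with h1 | h1 | h1
    · rcases lt_or_gt_of_ne hr3 with h2 | h2
      · exact n3 (key r0 r hr0int m0 _ (Or.inr ⟨h2, hr0.1⟩))
      · exact n0 (key r0 (-x3) hr0int m3 _ (Or.inr ⟨h2, h1⟩))
    · rw [h1] at n0; exact n0 hr0int
    · rcases lt_or_gt_of_ne hr1 with h2 | h2
      · exact n0 (key r0 x1 hr0int m1 _ (Or.inl ⟨h1, h2⟩))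
      · exact n1 (key r0 r hr0int m0 _ (Or.inl ⟨hr0.2, h2⟩))
  have hcontim : Continuous (fun t => (Γ t).im) := Complex.continuous_im.comp h.cont
  -- constant sign on intervals
  have hsign : ∀ a b : ℝ, (∀ t ∈ Ioo a b, (Γ t).im ≠ 0) →
      (∀ t ∈ Ioo a b, 0 < (Γ t).im) ∨ (∀ t ∈ Ioo a b, (Γ t).im < 0) := by
    intro a b hab
    by_contra hno
    push Not at hno
    obtain ⟨⟨s, hs, hs'⟩, ⟨t, ht, ht'⟩⟩ := hno
    have hpre : IsPreconnected (Ioo a b) := isPreconnected_Ioo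
    have := hpre.intermediate_value hs ht hcontim.continuousOn
    obtain ⟨c, hc, hc'⟩ := this ⟨hs', ht'⟩
    exact hab c hc hc'
  -- frontier points on both sides
  have hbelow : ∃ z ∈ frontier F, z.im < 0 := by
    obtain ⟨m, hmF, hm⟩ := h.comp.exists_isMinOn ⟨_, h.memF t1⟩ Complex.continuous_im.continuousOn
    have hmin : ∀ z ∈ F, m.im ≤ z.im := fun z hz => hm hz
    have hstep : ∀ z ∈ interior F, ∃ w ∈ F, w.im < z.im := by
      intro z hz
      rw [mem_interior_iff_mem_nhds, Metric.mem_nhds_iff] at hz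
      obtain ⟨ε, hε, hball⟩ := hz
      refine ⟨z - ((ε/2 : ℝ) : ℂ) * I, hball ?_, ?_⟩
      · rw [Metric.mem_ball, dist_eq_norm]
        simp only [sub_sub_cancel_left, norm_neg, norm_mul, Complex.norm_I, mul_one]
        rw [Complex.norm_real, Real.norm_eq_abs, abs_of_pos (by linarith)]
        linarith
      · simp only [Complex.sub_im, Complex.mul_I_im, Complex.ofReal_re]
        linarith
    refine ⟨m, ?_, ?_⟩
    · rw [h.closed.frontier_eq]
      refine ⟨hmF, fun hint => ?_⟩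
      obtain ⟨w, hwF, hw⟩ := hstep m hint
      linarith [hmin w hwF]
    · obtain ⟨w, hwF, hw⟩ := hstep _ hr0int
      have := hmin w hwF
      simp at hw
      linarith
  have habove : ∃ z ∈ frontier F, 0 < z.im := by
    obtain ⟨m, hmF, hm⟩ := h.comp.exists_isMaxOn ⟨_, h.memF t1⟩ Complex.continuous_im.continuousOn
    have hmax : ∀ z ∈ F, z.im ≤ m.im := fun z hz => hm hz
    have hstep : ∀ z ∈ interior F, ∃ w ∈ F, z.im < w.im := by
      intro z hz
      rw [mem_interior_iff_mem_nhds, Metric.mem_nhds_iff] at hz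
      obtain ⟨ε, hε, hball⟩ := hz
      refine ⟨z + ((ε/2 : ℝ) : ℂ) * I, hball ?_, ?_⟩
      · rw [Metric.mem_ball, dist_eq_norm]
        simp only [add_sub_cancel_left, norm_mul, Complex.norm_I, mul_one]
        rw [Complex.norm_real, Real.norm_eq_abs, abs_of_pos (by linarith)]
        linarith
      · simp only [Complex.add_im, Complex.mul_I_im, Complex.ofReal_re]
        linarith
    refine ⟨m, ?_, ?_⟩
    · rw [h.closed.frontier_eq]
      refine ⟨hmF, fun hint => ?_⟩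
      obtain ⟨w, hwF, hw⟩ := hstep m hint
      linarith [hmax w hwF]
    · obtain ⟨w, hwF, hw⟩ := hstep _ hr0int
      have := hmax w hwF
      simp at hw
      linarith
  have im1 : (Γ t1).im = 0 := by rw [h.e1]; simp
  have im3 : (Γ t3).im = 0 := by rw [h.e3]; simp
  have im2 : (Γ t2).im = x2 := by rw [h.e2]; simp
  have im4 : (Γ t4).im = -x4 := by rw [h.e4]; simp
  have hs1 := hsign t1 t3 (fun t ht => hne t ht.1 (by linarith [ht.2]) ht.2.ne)
  have hs2 := hsign t3 (t1 + 1) (fun t ht => hne t (by linarith [ht.1]) ht.2 ht.1.ne')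
  -- the frontier is covered
  have hcase : ∀ z ∈ frontier F, z.im ≠ 0 → (∃ t ∈ Ioo t1 t3, Γ t = z) ∨ (∃ t ∈ Ioo t3 (t1+1), Γ t = z) := by
    intro z hz hz0
    obtain ⟨t, ht, rfl⟩ := h.mem_arcs hz
    rcases eq_or_lt_of_le ht.1 with h1 | h1
    · rw [← h1] at hz0; exact absurd im1 hz0
    rcases lt_trichotomy t t3 with h2 | h2 | h2
    · exact Or.inl ⟨t, ⟨h1, h2⟩, rfl⟩
    · rw [h2] at hz0; exact absurd im3 hz0
    · exact Or.inr ⟨t, ⟨h2, ht.2⟩, rfl⟩
  have ht2 : t2 ∈ Ioo t1 t3 := ⟨h.h12, h.h23⟩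
  have ht4 : t4 ∈ Ioo t3 (t1 + 1) := ⟨h.h34, h.h41⟩
  rcases hs1 with hs1 | hs1
  · rcases hs2 with hs2 | hs2
    · exfalso
      obtain ⟨z, hz, hzneg⟩ := hbelow
      rcases hcase z hz hzneg.ne with ⟨t, ht, rfl⟩ | ⟨t, ht, rfl⟩
      · linarith [hs1 t ht]
      · linarith [hs2 t ht]
    · have a2 := hs1 t2 ht2
      have a4 := hs2 t4 ht4
      rw [im2] at a2
      rw [im4] at a4
      exact ⟨a2, by linarith, hs1, hs2⟩
  · rcases hs2 with hs2 | hs2
    · exfalso
      have a2 := hs1 t2 ht2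
      have a4 := hs2 t4 ht4
      rw [im2] at a2
      rw [im4] at a4
      linarith [h.p24]
    · exfalso
      obtain ⟨z, hz, hzpos⟩ := habove
      rcases hcase z hz hzpos.ne' with ⟨t, ht, rfl⟩ | ⟨t, ht, rfl⟩
      · linarith [hs1 t ht]
      · linarith [hs2 t ht]

end Cfg

end Pool.Agent.Helper53_Quad
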