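import Mathlib
import Pool.Agent.Helper53_Quad.Cfg

namespace Pool.Agent.Helper53_Quad

open Complex Set
open scoped Real ENNReal

/-- `e` is a (counterclockwise) supporting direction of `F` at `p`. -/
def Supp (F : Set ℂ) (p e : ℂ) : Prop := ∀ z ∈ F, 0 ≤ cr e (z - p)

lemma cr_rotE (z w : ℂ) : cr (rotE z) (rotE w) = cr z w := by
  unfold cr
  rw [rotE_apply, rotE_apply]
  simp
  ring

lemma Supp.rot {F : Set ℂ} {p e : ℂ} (h : Supp F p e) : Supp (rotE '' F) (rotE p) (rotE e) := by
  rintro _ ⟨z, hz, rfl⟩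
  rw [← map_sub, cr_rotE]
  exact h z hz

namespace Cfg

variable {F : Set ℂ} {Γ : ℝ → ℂ} {t1 t2 t3 t4 x1 x2 x3 x4 : ℝ} {L : ℝ≥0∞}

lemma pos (h : Cfg F Γ t1 t2 t3 t4 x1 x2 x3 x4 L) : 0 < x1 ∧ 0 < x2 ∧ 0 < x3 ∧ 0 < x4 := by
  obtain ⟨h2, h4, -, -⟩ := h.side
  obtain ⟨h3, h1, -, -⟩ := h.rot.side
  exact ⟨h1, h2, h3, h4⟩

lemma zero_int (h : Cfg F Γ t1 t2 t3 t4 x1 x2 x3 x4 L) : (0 : ℂ) ∈ interior F := by
  obtain ⟨hx1, hx2, hx3, hx4⟩ := h.pos
  obtain ⟨r0, hr0, hr0int⟩ := h.chord_interior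
  rcases lt_trichotomy r0 0 with hr | hr | hr
  · -- 0 between r0 and x1
    apply h.conv.openSegment_interior_self_subset_interior hr0int (h.memF t1)
    refine ⟨x1 / (x1 - r0), -r0 / (x1 - r0), div_pos hx1 (by linarith),
      div_pos (by linarith) (by linarith), by have : x1 - r0 ≠ 0 := by linarith
                                              field_simp
                                              ring, ?_⟩
    rw [h.e1, Complex.real_smul, Complex.real_smul, ← Complex.ofReal_mul, ← Complex.ofReal_mul,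
      ← Complex.ofReal_add]
    rw [← Complex.ofReal_zero]
    congr 1
    have : x1 - r0 ≠ 0 := by linarith
    field_simp
    ring
  · rw [hr] at hr0int; simpa using hr0int
  · apply h.conv.openSegment_interior_self_subset_interior hr0int (h.memF t3)
    refine ⟨x3 / (x3 + r0), r0 / (x3 + r0), div_pos hx3 (by linarith),
      div_pos (by linarith) (by linarith), by have : x3 + r0 ≠ 0 := by linarith
                                              field_simp, ?_⟩
    have e3 : Γ t3 = ((-x3 : ℝ) : ℂ) := by rw [h.e3]; push_cast; rfl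
    rw [e3, Complex.real_smul, Complex.real_smul, ← Complex.ofReal_mul, ← Complex.ofReal_mul,
      ← Complex.ofReal_add]
    rw [← Complex.ofReal_zero]
    congr 1
    have : x3 + r0 ≠ 0 := by linarith
    field_simp
    ring

lemma ne_zero (h : Cfg F Γ t1 t2 t3 t4 x1 x2 x3 x4 L) (t : ℝ) : Γ t ≠ 0 := by
  intro h0
  have := h.not_int t
  rw [h0] at this
  exact this h.zero_int

/-- the first arc lies in the closed first quadrant -/
lemma quad (h : Cfg F Γ t1 t2 t3 t4 x1 x2 x3 x4 L) : ∀ t ∈ Icc t1 t2, 0 ≤ (Γ t).re ∧ 0 ≤ (Γ t).im := by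
  obtain ⟨hx1, hx2, hx3, hx4⟩ := h.pos
  intro t ht
  rcases eq_or_lt_of_le ht.1 with h1 | h1
  · rw [← h1, h.e1]; simp [hx1.le]
  rcases eq_or_lt_of_le ht.2 with h2 | h2
  · rw [h2, h.e2]; simp [hx2.le]
  obtain ⟨-, -, hs, -⟩ := h.side
  obtain ⟨-, -, -, hs'⟩ := h.rot.side
  have a := hs t ⟨h1, h2.trans h.h23⟩
  have b := hs' (t + 1) ⟨by linarith [h.h41], by linarith⟩
  simp only [h.per, rotE_apply] at b
  simp at b
  exact ⟨b.le, a.le⟩

lemma ray_inj (h : Cfg F Γ t1 t2 t3 t4 x1 x2 x3 x4 L) {s t c : ℝ} (hc : 0 < c)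
    (hst : Γ s = (c : ℂ) * Γ t) : c = 1 := by
  rcases lt_trichotomy c 1 with h1 | h1 | h1
  · exfalso
    apply h.not_int s
    apply h.conv.openSegment_interior_self_subset_interior h.zero_int (h.memF t)
    refine ⟨1 - c, c, by linarith, hc, by ring, ?_⟩
    rw [smul_zero, zero_add, Complex.real_smul, hst]
  · exact h1
  · exfalso
    apply h.not_int t
    apply h.conv.openSegment_interior_self_subset_interior h.zero_int (h.memF s)
    have hc' : 0 < 1 / c := by positivity
    have hc1 : 1 / c < 1 := by rw [div_lt_one hc]; exact h1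
    refine ⟨1 - 1 / c, 1 / c, by linarith, hc', by ring, ?_⟩
    rw [smul_zero, zero_add, Complex.real_smul, hst, ← mul_assoc, ← Complex.ofReal_mul]
    rw [one_div, inv_mul_cancel₀ hc.ne']
    simp

/-- polar angle is strictly increasing on the first arc -/
lemma polar (h : Cfg F Γ t1 t2 t3 t4 x1 x2 x3 x4 L) {s t : ℝ} (hs : s ∈ Icc t1 t2)
    (ht : t ∈ Icc t1 t2) (hst : s < t) : 0 < cr (Γ s) (Γ t) := by
  obtain ⟨hx1, hx2, hx3, hx4⟩ := h.pos
  have hsum : ∀ t ∈ Icc t1 t2, 0 < (Γ t).re + (Γ t).im := by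
    intro t ht
    obtain ⟨h1, h2⟩ := h.quad t ht
    rcases eq_or_lt_of_le h1 with h3 | h3
    · rcases eq_or_lt_of_le h2 with h4 | h4
      · exfalso
        exact h.ne_zero t (Complex.ext h3.symm h4.symm)
      · linarith
    · linarith
  set ν : ℝ → ℝ := fun t => (Γ t).im / ((Γ t).re + (Γ t).im) with hν
  have hcont : ContinuousOn ν (Icc t1 t2) := by
    apply ContinuousOn.div
    · exact (Complex.continuous_im.comp h.cont).continuousOn
    · exact ((Complex.continuous_re.comp h.cont).add (Complex.continuous_im.comp h.cont)).continuousOn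
    · intro t ht; exact (hsum t ht).ne'
  have hinj : InjOn ν (Icc t1 t2) := by
    intro a ha b hb hab
    simp only [hν] at hab
    have ha' := hsum a ha
    have hb' := hsum b hb
    rw [div_eq_div_iff ha'.ne' hb'.ne'] at hab
    set c : ℝ := ((Γ a).re + (Γ a).im) / ((Γ b).re + (Γ b).im) with hc
    have hcpos : 0 < c := div_pos ha' hb'
    have hΓ : Γ a = (c : ℂ) * Γ b := by
      apply Complex.ext
      · rw [Complex.re_ofReal_mul, hc]
        field_simp
        linear_combination (-1 : ℝ) * hab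
      · rw [Complex.im_ofReal_mul, hc]
        field_simp
        linear_combination hab
    have hc1 := h.ray_inj hcpos hΓ
    rw [hc1, Complex.ofReal_one, one_mul] at hΓ
    by_contra hne
    have h21 : t2 < t1 + 1 := (h.h23.trans h.h34).trans h.h41
    rcases lt_or_gt_of_ne hne with hlt | hlt
    · exact h.inj a b hlt (by linarith [ha.1, hb.2]) hΓ
    · exact h.inj b a hlt (by linarith [hb.1, ha.2]) hΓ.symm
  have hmono : StrictMonoOn ν (Icc t1 t2) := by
    apply ContinuousOn.strictMonoOn_of_injOn_Icc h.h12.le _ hcont hinj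
    simp only [hν, h.e1, h.e2]
    simp
    rw [div_self hx2.ne']
    norm_num
  have hlt := hmono hs ht hst
  simp only [hν] at hlt
  rw [div_lt_div_iff₀ (hsum s hs) (hsum t ht)] at hlt
  unfold cr
  linarith

/-- existence of supporting directions -/
lemma exists_supp (h : Cfg F Γ t1 t2 t3 t4 x1 x2 x3 x4 L) (t : ℝ) :
    ∃ e : ℂ, Supp F (Γ t) e ∧ 0 < cr (Γ t) e := by
  obtain ⟨f, hf⟩ := geometric_hahn_banach_open_point h.conv.interior isOpen_interior (h.not_int t)
  set e : ℂ := ⟨-(f I), f 1⟩ with he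
  have hfe : ∀ z : ℂ, f z = - cr e z := by
    intro z
    have : z = z.re • (1 : ℂ) + z.im • I := by
      apply Complex.ext <;> simp
    conv_lhs => rw [this]
    rw [map_add, map_smul, map_smul]
    simp only [cr, he, smul_eq_mul]
    ring
  have hle : ∀ z ∈ F, f z ≤ f (Γ t) := by
    intro z hz
    have hz' : z ∈ closure (interior F) := by
      rw [h.conv.closure_interior_eq_closure_of_nonempty_interior h.nint]
      exact subset_closure hz
    have hcl : IsClosed {z : ℂ | f z ≤ f (Γ t)} := isClosed_le f.continuous continuous_const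
    exact closure_minimal (fun w hw => (hf w hw).le) hcl hz'
  refine ⟨e, ?_, ?_⟩
  · intro z hz
    have := hle z hz
    rw [hfe, hfe] at this
    have h2 : cr e (z - Γ t) = cr e z - cr e (Γ t) := by
      unfold cr; rw [Complex.sub_im, Complex.sub_re]; ring
    rw [h2]; linarith
  · have := hf 0 h.zero_int
    rw [hfe, hfe] at this
    have h2 : cr e 0 = 0 := by simp [cr]
    have h3 : cr (Γ t) e = - cr e (Γ t) := by unfold cr; ring
    rw [h3]
    rw [h2] at this
    linarith

/-- The tilt of a supporting line at the first endpoint. -/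
lemma exists_tilt (h : Cfg F Γ t1 t2 t3 t4 x1 x2 x3 x4 L) :
    ∃ t ∈ Ioo (-(π/2)) (π/2), Supp F (x1 : ℂ) (Real.sin t + Real.cos t * I) := by
  obtain ⟨hx1, hx2, hx3, hx4⟩ := h.pos
  obtain ⟨e, he, hpos⟩ := h.exists_supp t1
  rw [h.e1] at he hpos
  have him : 0 < e.im := by
    unfold cr at hpos
    simp at hpos
    exact (mul_pos_iff_of_pos_left hx1).mp hpos
  refine ⟨Real.arctan (e.re / e.im), Real.arctan_mem_Ioo _, ?_⟩
  intro z hz
  have h0 := he z hz
  unfold cr at h0 ⊢
  rw [Real.sin_arctan, Real.cos_arctan]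
  have hq : 0 < √(1 + (e.re / e.im)^2) := by positivity
  simp only [Complex.add_re, Complex.ofReal_re, Complex.mul_re, Complex.I_re, mul_zero,
    Complex.ofReal_im, Complex.I_im, mul_one, sub_self, add_zero, Complex.add_im, Complex.mul_im,
    zero_add]
  have : e.re / e.im / √(1 + (e.re / e.im)^2) * (z - (x1 : ℂ)).im
      - 1 / √(1 + (e.re / e.im)^2) * (z - (x1 : ℂ)).re
      = (e.re * (z - (x1 : ℂ)).im - e.im * (z - (x1 : ℂ)).re) / (e.im * √(1 + (e.re / e.im)^2)) := by
    field_simp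
  rw [this]
  exact div_nonneg h0 (by positivity)

/-- The lifted argument of supporting directions is monotone along the first arc and controls
the directions of the increments. -/
lemma incr (h : Cfg F Γ t1 t2 t3 t4 x1 x2 x3 x4 L) {s t : ℝ} (hs : s ∈ Icc t1 t2)
    (ht : t ∈ Icc t1 t2) (hst : s < t) {e e' : ℂ} (he : Supp F (Γ s) e) (hep : 0 < cr (Γ s) e)
    (he' : Supp F (Γ t) e') (hep' : 0 < cr (Γ t) e') :
    A e ≤ A (Γ t - Γ s) ∧ A (Γ t - Γ s) ≤ A e' := by
  have hp := h.polar hs ht hst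
  obtain ⟨q1, q2⟩ := h.quad s hs
  obtain ⟨q3, q4⟩ := h.quad t ht
  have c1 : 0 < cr (Γ s) (Γ t - Γ s) := by
    unfold cr at hp ⊢
    simp only [Complex.sub_re, Complex.sub_im]
    linarith
  have c2 : 0 < cr (Γ t) (Γ t - Γ s) := by
    unfold cr at hp ⊢
    simp only [Complex.sub_re, Complex.sub_im]
    linarith
  constructor
  · exact A_mono (h.ne_zero s) q1 q2 hep c1 (he _ (h.memF t))
  · apply A_mono (h.ne_zero t) q3 q4 c2 hep'
    have := he' _ (h.memF s)
    unfold cr at this ⊢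
    simp only [Complex.sub_re, Complex.sub_im] at this ⊢
    linarith

/-- cone estimate on a subarc of the first arc -/
lemma cone (h : Cfg F Γ t1 t2 t3 t4 x1 x2 x3 x4 L) {s0 s1 : ℝ} (hs0 : s0 ∈ Icc t1 t2)
    (hs1 : s1 ∈ Icc t1 t2) {e e' : ℂ} (he : Supp F (Γ s0) e) (hep : 0 < cr (Γ s0) e)
    (he' : Supp F (Γ s1) e') (hep' : 0 < cr (Γ s1) e') :
    ∀ s ∈ Icc s0 s1, ∀ t ∈ Icc s0 s1, s < t →
      ‖Γ t - Γ s‖ * Real.cos ((A e' - A e) / 2) ≤
        dt (3 * π / 4 + (A e + A e') / 2) (Γ t - Γ s) := by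
  intro s hs t ht hst
  have hs' : s ∈ Icc t1 t2 := ⟨hs0.1.trans hs.1, hs.2.trans hs1.2⟩
  have ht' : t ∈ Icc t1 t2 := ⟨hs0.1.trans ht.1, ht.2.trans hs1.2⟩
  apply dt_ge
  · -- A e ≤ A (Γ t - Γ s)
    obtain ⟨f', hf', hfp'⟩ := h.exists_supp t
    rcases eq_or_lt_of_le hs.1 with h1 | h1
    · subst h1
      exact (h.incr hs' ht' hst he hep hf' hfp').1
    · obtain ⟨f, hf, hfp⟩ := h.exists_supp s
      obtain ⟨a1, a2⟩ := h.incr hs0 hs' h1 he hep hf hfp
      exact (a1.trans a2).trans (h.incr hs' ht' hst hf hfp hf' hfp').1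
  · obtain ⟨f, hf, hfp⟩ := h.exists_supp s
    rcases eq_or_lt_of_le ht.2 with h1 | h1
    · subst h1
      exact (h.incr hs' ht' hst hf hfp he' hep').2
    · obtain ⟨f', hf', hfp'⟩ := h.exists_supp t
      obtain ⟨a1, a2⟩ := h.incr ht' hs1 h1 hf' hfp' he' hep'
      exact ((h.incr hs' ht' hst hf hfp hf' hfp').2).trans (a1.trans a2)
  · have := A_mem e
    have := A_mem e'
    linarith

/-- The basic inequality for the first arc. -/
lemma arc (h : Cfg F Γ t1 t2 t3 t4 x1 x2 x3 x4 L) {t t' : ℝ}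
    (ht : t ∈ Ioo (-(π/2)) (π/2)) (ht' : t' ∈ Ioo (-(π/2)) (π/2))
    (hs : Supp F (x1 : ℂ) (Real.sin t + Real.cos t * I))
    (hs' : Supp F (x2 * I) (I * (Real.sin t' + Real.cos t' * I))) :
    (0 < Real.cos (π/4 + (t - t')/2) → L ≠ ⊤) ∧
    (∀ l : ℝ, 0 ≤ l → L = ENNReal.ofReal l →
      l * Real.cos (π/4 + (t - t')/2) ≤
        x1 * Real.sin (π/4 - (t + t')/2) + x2 * Real.cos (π/4 - (t + t')/2)) ∧
    0 ≤ x1 * Real.cos t + x2 * Real.sin t ∧ 0 ≤ x2 * Real.cos t' - x1 * Real.sin t' := by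
  obtain ⟨hx1, hx2, hx3, hx4⟩ := h.pos
  have hct := Real.cos_pos_of_mem_Ioo ht
  have hct' := Real.cos_pos_of_mem_Ioo ht'
  have l1 : t1 ∈ Icc t1 t2 := left_mem_Icc.mpr h.h12.le
  have l2 : t2 ∈ Icc t1 t2 := right_mem_Icc.mpr h.h12.le
  have g1 : 0 < cr (Γ t1) (Real.sin t + Real.cos t * I) := by
    rw [h.e1]; unfold cr; simp only [Complex.ofReal_re, Complex.ofReal_im, Complex.add_im,
      Complex.mul_I_im, Complex.add_re, Complex.mul_I_re, zero_mul, sub_zero, zero_add]
    positivity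
  have g2 : 0 < cr (Γ t2) (I * (Real.sin t' + Real.cos t' * I)) := by
    rw [h.e2]; unfold cr
    simp only [Complex.mul_re, Complex.mul_im, Complex.ofReal_re, Complex.ofReal_im, Complex.I_re,
      Complex.I_im, Complex.add_re, Complex.add_im]
    ring_nf
    positivity
  have hs1 : Supp F (Γ t1) (Real.sin t + Real.cos t * I) := by rw [h.e1]; exact hs
  have hs2 : Supp F (Γ t2) (I * (Real.sin t' + Real.cos t' * I)) := by rw [h.e2]; exact hs'
  have hcone := h.cone l1 l2 hs1 g1 hs2 g2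
  rw [A_tilt ht, A_tilt' ht'] at hcone
  rw [show (π / 4 - t' - (-(π / 4) - t)) / 2 = π/4 + (t - t')/2 by ring,
    show 3 * π / 4 + (-(π / 4) - t + (π / 4 - t')) / 2 = 3 * π / 4 - (t + t')/2 by ring] at hcone
  have hval : dt (3 * π / 4 - (t + t')/2) (Γ t2 - Γ t1)
      = x1 * Real.sin (π/4 - (t + t')/2) + x2 * Real.cos (π/4 - (t + t')/2) := by
    unfold dt
    rw [h.e1, h.e2]
    have e1 : 3 * π / 4 - (t + t')/2 = (π/4 - (t + t')/2) + π/2 := by ring
    rw [e1, Real.cos_add_pi_div_two, Real.sin_add_pi_div_two]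
    simp
  refine ⟨?_, ?_, ?_, ?_⟩
  · intro hpos htop
    have := eVar_le h.h12.le hpos hcone
    rw [h.v1, htop] at this
    exact absurd this (not_le.mpr ENNReal.ofReal_lt_top)
  · intro l hl hL
    rcases lt_or_ge 0 (Real.cos (π/4 + (t - t')/2)) with hpos | hneg
    · have := eVar_le h.h12.le hpos hcone
      rw [h.v1, hL, hval] at this
      rw [ENNReal.ofReal_le_ofReal_iff'] at this
      rcases this with this | this
      · rwa [le_div_iff₀ hpos] at this
      · have hl0 : l = 0 := le_antisymm this hl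
        have h1 := hcone t1 l1 t2 l2 h.h12
        rw [hval] at h1
        rw [hl0, zero_mul]
        refine le_trans ?_ h1
        positivity
    · have h1 := hcone t1 l1 t2 l2 h.h12
      rw [hval] at h1
      refine le_trans ?_ h1
      apply mul_le_mul_of_nonpos_right _ hneg
      have h2 := h.edist_le_arc.1
      rw [hL, edist_dist, ENNReal.ofReal_le_ofReal_iff hl, dist_comm, dist_eq_norm] at h2
      exact h2
  · have := hs _ (h.memF t2)
    rw [h.e2] at this
    unfold cr at this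
    simp at this
    simp only [← Complex.ofReal_sin, ← Complex.ofReal_cos, Complex.ofReal_re] at this
    linarith
  · have := hs' _ (h.memF t1)
    rw [h.e1] at this
    unfold cr at this
    simp at this
    simp only [← Complex.ofReal_sin, ← Complex.ofReal_cos, Complex.ofReal_re] at this
    linarith

end Cfg

end Pool.Agent.Helper53_Quad
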