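import Mathlib

namespace Pool.Agent.Helper53_Quad

open Real

/-- From the support inequality at the first endpoint, the denominator is nonnegative. -/
lemma D_nonneg {l x y a : ℝ} (hl : 0 < l) (hx : 0 < x) (hy : 0 < y) (hk : x^2 + y^2 ≤ l^2)
    (hq : 0 ≤ x * (1 - a^2) + y * (2 * a)) : 0 ≤ (l + x + y) * a + (l + x - y) := by
  by_contra hcon
  push Not at hcon
  obtain ⟨D, hD⟩ : ∃ D, D = (l + x + y) * a + (l + x - y) := ⟨_, rfl⟩
  rw [← hD] at hcon
  have h1 : (l + x + y)^2 * (x * (1 - a^2) + y * (2 * a))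
      = 2 * y * (x^2 + y^2 - l^2) + D * (2 * (y * l + y^2 + x * l + x^2)) - x * D^2 := by
    rw [hD]; ring
  have h2 : 0 ≤ (l + x + y)^2 * (x * (1 - a^2) + y * (2 * a)) := mul_nonneg (sq_nonneg _) hq
  have h3 : D * (2 * (y * l + y^2 + x * l + x^2)) < 0 :=
    mul_neg_of_neg_of_pos hcon (by positivity)
  have h4 : 0 ≤ x * D^2 := by positivity
  have h5 : 2 * y * (x^2 + y^2 - l^2) ≤ 0 :=
    mul_nonpos_of_nonneg_of_nonpos (by positivity) (by linarith)
  linarith

/-- conversion of the trigonometric arc inequality to half-angle tangents -/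
lemma trig_to_alg {l x y t t' : ℝ} (hl : 0 < l) (hx : 0 < x) (hy : 0 < y)
    (hk : x^2 + y^2 ≤ l^2)
    (ht : t ∈ Set.Ioo (-(π/2)) (π/2)) (ht' : t' ∈ Set.Ioo (-(π/2)) (π/2))
    (hG1 : l * cos (π/4 + (t - t')/2) ≤ x * sin (π/4 - (t + t')/2) + y * cos (π/4 - (t + t')/2))
    (hG2 : 0 ≤ x * cos t + y * sin t) (hG3 : 0 ≤ y * cos t' - x * sin t') :
    l * (1 - tan (t/2) + tan (t'/2) + tan (t/2) * tan (t'/2)) ≤
      x * (1 - tan (t/2) - tan (t'/2) - tan (t/2) * tan (t'/2))
      + y * (1 + tan (t/2) + tan (t'/2) - tan (t/2) * tan (t'/2)) ∧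
    0 ≤ (l + x + y) * tan (t/2) + (l + x - y) ∧
    0 ≤ (l + y - x) - (l + x + y) * tan (t'/2) := by
  have hc : 0 < cos (t/2) := cos_pos_of_mem_Ioo ⟨by linarith [ht.1, pi_pos], by linarith [ht.2, pi_pos]⟩
  have hc' : 0 < cos (t'/2) :=
    cos_pos_of_mem_Ioo ⟨by linarith [ht'.1, pi_pos], by linarith [ht'.2, pi_pos]⟩
  obtain ⟨a, ha⟩ : ∃ a, a = tan (t/2) := ⟨_, rfl⟩
  obtain ⟨b, hb⟩ : ∃ b, b = tan (t'/2) := ⟨_, rfl⟩
  have hs : sin (t/2) = a * cos (t/2) := by rw [ha, tan_eq_sin_div_cos]; field_simp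
  have hs' : sin (t'/2) = b * cos (t'/2) := by rw [hb, tan_eq_sin_div_cos]; field_simp
  rw [← ha, ← hb]
  have hcost : cos t = cos (t/2)^2 * (1 - a^2) := by
    have : cos t = cos (t/2)^2 - sin (t/2)^2 := by
      have h := Real.cos_two_mul' (t/2)
      rwa [show 2 * (t/2) = t by ring] at h
    rw [this, hs]; ring
  have hsint : sin t = cos (t/2)^2 * (2 * a) := by
    have : sin t = 2 * sin (t/2) * cos (t/2) := by
      have h := Real.sin_two_mul (t/2)
      rwa [show 2 * (t/2) = t by ring] at h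
    rw [this, hs]; ring
  have hcost' : cos t' = cos (t'/2)^2 * (1 - b^2) := by
    have : cos t' = cos (t'/2)^2 - sin (t'/2)^2 := by
      have h := Real.cos_two_mul' (t'/2)
      rwa [show 2 * (t'/2) = t' by ring] at h
    rw [this, hs']; ring
  have hsint' : sin t' = cos (t'/2)^2 * (2 * b) := by
    have : sin t' = 2 * sin (t'/2) * cos (t'/2) := by
      have h := Real.sin_two_mul (t'/2)
      rwa [show 2 * (t'/2) = t' by ring] at h
    rw [this, hs']; ring
  have hq1 : 0 ≤ x * (1 - a^2) + y * (2 * a) := by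
    have h : 0 ≤ cos (t/2)^2 * (x * (1 - a^2) + y * (2 * a)) := by
      rw [hcost, hsint] at hG2; linear_combination hG2
    exact nonneg_of_mul_nonneg_right h (by positivity)
  have hq2 : 0 ≤ y * (1 - (-b)^2) + x * (2 * (-b)) := by
    have h : 0 ≤ cos (t'/2)^2 * (y * (1 - (-b)^2) + x * (2 * (-b))) := by
      rw [hcost', hsint'] at hG3; linear_combination hG3
    exact nonneg_of_mul_nonneg_right h (by positivity)
  refine ⟨?_, D_nonneg hl hx hy hk hq1, ?_⟩
  · have e1 : cos (π/4 + (t - t')/2) = (√2/2) * (cos (t/2) * cos (t'/2)) * (1 - a + b + a * b) := by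
      rw [cos_add, cos_pi_div_four, sin_pi_div_four,
        show (t - t')/2 = t/2 - t'/2 by ring, cos_sub, sin_sub, hs, hs']
      ring
    have e2 : sin (π/4 - (t + t')/2) = (√2/2) * (cos (t/2) * cos (t'/2)) * (1 - a - b - a * b) := by
      rw [sin_sub, cos_pi_div_four, sin_pi_div_four,
        show (t + t')/2 = t/2 + t'/2 by ring, cos_add, sin_add, hs, hs']
      ring
    have e3 : cos (π/4 - (t + t')/2) = (√2/2) * (cos (t/2) * cos (t'/2)) * (1 + a + b - a * b) := by
      rw [cos_sub, cos_pi_div_four, sin_pi_div_four,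
        show (t + t')/2 = t/2 + t'/2 by ring, cos_add, sin_add, hs, hs']
      ring
    rw [e1, e2, e3] at hG1
    have hpos : 0 < (√2/2) * (cos (t/2) * cos (t'/2)) := by positivity
    apply le_of_mul_le_mul_left _ hpos
    linear_combination hG1
  · have := D_nonneg hl hy hx (by linarith) hq2
    linear_combination this

end Pool.Agent.Helper53_Quad
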