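import Mathlib
import Pool.Agent.Helper53_Quad.Alg
import Pool.Agent.Helper53_Quad.Trig
import Pool.Agent.Helper53_Quad.Arc

namespace Pool.Agent.Helper53_Quad

open Complex Set
open scoped Real ENNReal

lemma Supp.unrot {F : Set ℂ} {p e : ℂ} (h : Supp (rotE '' F) (rotE p) (rotE e)) : Supp F p e := by
  intro z hz
  have := h (rotE z) ⟨z, hz, rfl⟩
  rwa [← map_sub, cr_rotE] at this

lemma Supp.unrot' {F : Set ℂ} {x : ℝ} {e : ℂ} (h : Supp (rotE '' F) (x : ℂ) e) :
    Supp F (x * I) (I * e) := by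
  apply Supp.unrot
  rw [rotE_apply, rotE_apply]
  have e1 : -I * ((x : ℂ) * I) = x := by linear_combination (-(x : ℂ)) * Complex.I_mul_I
  have e2 : -I * (I * e) = e := by linear_combination (-e) * Complex.I_mul_I
  rw [e1, e2]
  exact h

lemma Supp.rot3 {F : Set ℂ} {x : ℝ} {e : ℂ} (h : Supp F (x : ℂ) e) :
    Supp (rotE '' (rotE '' (rotE '' F))) (x * I) (I * e) := by
  have h3 := h.rot.rot.rot
  have e1 : rotE (rotE (rotE (x : ℂ))) = x * I := by
    simp only [rotE_apply]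
    linear_combination (-(x : ℂ) * I) * Complex.I_mul_I
  have e2 : rotE (rotE (rotE e)) = I * e := by
    simp only [rotE_apply]
    linear_combination (-e * I) * Complex.I_mul_I
  rwa [e1, e2] at h3

namespace Cfg

variable {F : Set ℂ} {Γ : ℝ → ℂ} {t1 t2 t3 t4 x1 x2 x3 x4 : ℝ} {L : ℝ≥0∞}

/-- Main inequality in the normalized configuration. -/
lemma main (h : Cfg F Γ t1 t2 t3 t4 x1 x2 x3 x4 L) :
    ∃ l : ℝ, 0 < l ∧ L = ENNReal.ofReal l ∧ 2 * l ≤ x1 + x2 + x3 + x4 ∧
      (2 * l = x1 + x2 + x3 + x4 → x1 = x3 ∧ x2 = x4 ∧ Supp F (x1 : ℂ) I ∧ Supp F (x2 * I) (-1)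
        ∧ Supp F (-x3 : ℂ) (-I) ∧ Supp F (-x4 * I) 1) := by
  obtain ⟨hx1, hx2, hx3, hx4⟩ := h.pos
  have r1 := h.rot
  have r2 := r1.rot
  have r3 := r2.rot
  obtain ⟨a1, ha1, s1⟩ := h.exists_tilt
  obtain ⟨a2, ha2, s2⟩ := r1.exists_tilt
  obtain ⟨a3, ha3, s3⟩ := r2.exists_tilt
  obtain ⟨a4, ha4, s4⟩ := r3.exists_tilt
  obtain ⟨f1, g1, p1, q1⟩ := h.arc ha1 ha2 s1 s2.unrot'
  obtain ⟨f2, g2, p2, q2⟩ := r1.arc ha2 ha3 s2 s3.unrot'
  obtain ⟨f3, g3, p3, q3⟩ := r2.arc ha3 ha4 s3 s4.unrot'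
  obtain ⟨f4, g4, p4, q4⟩ := r3.arc ha4 ha1 s4 s1.rot3
  have hpi := Real.pi_pos
  -- finiteness
  have hLtop : L ≠ ⊤ := by
    have key : ∀ a b : ℝ, a ∈ Ioo (-(π/2)) (π/2) → b ∈ Ioo (-(π/2)) (π/2) → a ≤ b →
        0 < Real.cos (π/4 + (a - b)/2) := by
      intro a b ha hb hab
      apply Real.cos_pos_of_mem_Ioo
      constructor
      · linarith [ha.1, hb.2]
      · linarith
    by_cases c1 : a1 ≤ a2
    · exact f1 (key _ _ ha1 ha2 c1)
    by_cases c2 : a2 ≤ a3
    · exact f2 (key _ _ ha2 ha3 c2)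
    by_cases c3 : a3 ≤ a4
    · exact f3 (key _ _ ha3 ha4 c3)
    push Not at c1 c2 c3
    exact f4 (key _ _ ha4 ha1 (by linarith))
  set l := L.toReal with hl
  have hL : L = ENNReal.ofReal l := (ENNReal.ofReal_toReal hLtop).symm
  have hl0 : 0 ≤ l := ENNReal.toReal_nonneg
  obtain ⟨d1, d2, d3, d4⟩ := h.edist_le_arc
  rw [hL, edist_dist, ENNReal.ofReal_le_ofReal_iff hl0, dist_eq_norm] at d1 d2 d3 d4
  rw [h.e1, h.e2] at d1
  rw [h.e2, h.e3] at d2
  rw [h.e3, h.e4] at d3
  rw [h.e4, h.e1] at d4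
  have k1 : x1^2 + x2^2 ≤ l^2 := by
    have := pow_le_pow_left₀ (norm_nonneg _) d1 2
    rw [← Complex.normSq_eq_norm_sq, Complex.normSq_apply] at this
    simp at this
    linarith
  have k2 : x2^2 + x3^2 ≤ l^2 := by
    have := pow_le_pow_left₀ (norm_nonneg _) d2 2
    rw [← Complex.normSq_eq_norm_sq, Complex.normSq_apply] at this
    simp at this
    linarith
  have k3 : x3^2 + x4^2 ≤ l^2 := by
    have := pow_le_pow_left₀ (norm_nonneg _) d3 2
    rw [← Complex.normSq_eq_norm_sq, Complex.normSq_apply] at this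
    simp at this
    linarith
  have k4 : x4^2 + x1^2 ≤ l^2 := by
    have := pow_le_pow_left₀ (norm_nonneg _) d4 2
    rw [← Complex.normSq_eq_norm_sq, Complex.normSq_apply] at this
    simp at this
    linarith
  have hlpos : 0 < l := by
    rcases hl0.lt_or_eq with h1 | h1
    · exact h1
    · exfalso
      rw [← h1] at k1
      have := sq_pos_of_pos hx1
      have := sq_pos_of_pos hx2
      linarith
  obtain ⟨A1, D1, E1⟩ := trig_to_alg hlpos hx1 hx2 k1 ha1 ha2 (g1 l hl0 hL) p1 q1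
  obtain ⟨A2, D2, E2⟩ := trig_to_alg hlpos hx2 hx3 k2 ha2 ha3 (g2 l hl0 hL) p2 q2
  obtain ⟨A3, D3, E3⟩ := trig_to_alg hlpos hx3 hx4 k3 ha3 ha4 (g3 l hl0 hL) p3 q3
  obtain ⟨A4, D4, E4⟩ := trig_to_alg hlpos hx4 hx1 k4 ha4 ha1 (g4 l hl0 hL) p4 q4
  have hcore := core hlpos hx1 hx2 hx3 hx4 k1 k2 k3 k4 D1 E1 D2 E2 D3 E3 D4 E4 A1 A2 A3 A4
  have hcore' := core hlpos hx2 hx3 hx4 hx1 k2 k3 k4 k1 D2 E2 D3 E3 D4 E4 D1 E1 A2 A3 A4 A1
  have hle : 2 * l ≤ x1 + x2 + x3 + x4 := by
    by_contra hcon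
    push Not at hcon
    have := (hcore hcon.le).1
    linarith
  refine ⟨l, hlpos, hL, hle, ?_⟩
  intro heq
  obtain ⟨-, h13, h24, z1, z3⟩ := hcore heq.ge
  obtain ⟨-, -, -, z2, z4⟩ := hcore' (by linarith)
  have tz : ∀ a : ℝ, a ∈ Ioo (-(π/2)) (π/2) → Real.tan (a/2) = 0 → a = 0 := by
    intro a ha h0
    have h1 : Real.tan (a/2) = Real.tan 0 := by rw [h0, Real.tan_zero]
    have h2 : a/2 = 0 := Real.injOn_tan ⟨by linarith [ha.1], by linarith [ha.2]⟩
      ⟨by linarith, by linarith⟩ h1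
    linarith
  have w1 := tz a1 ha1 z1
  have w2 := tz a2 ha2 z2
  have w3 := tz a3 ha3 z3
  have w4 := tz a4 ha4 z4
  rw [w1] at s1
  rw [w2] at s2
  rw [w3] at s3
  rw [w4] at s4
  simp only [Real.sin_zero, Real.cos_zero, Complex.ofReal_zero, Complex.ofReal_one, one_mul,
    zero_add] at s1 s2 s3 s4
  refine ⟨h13, h24, s1, ?_, ?_, ?_⟩
  · have := s2.unrot'
    rwa [Complex.I_mul_I] at this
  · apply Supp.unrot
    apply Supp.unrot
    have e1 : rotE (rotE (-(x3 : ℂ))) = x3 := by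
      simp only [rotE_apply]; linear_combination (-(x3 : ℂ)) * Complex.I_mul_I
    have e2 : rotE (rotE (-I)) = I := by
      simp only [rotE_apply]; linear_combination (-I) * Complex.I_mul_I
    rw [e1, e2]; exact s3
  · apply Supp.unrot
    apply Supp.unrot
    apply Supp.unrot
    have e1 : rotE (rotE (rotE (-(x4 : ℂ) * I))) = x4 := by
      simp only [rotE_apply]
      have := Complex.I_mul_I
      linear_combination (x4 : ℂ) * (I * I - 1) * Complex.I_mul_I
    have e2 : rotE (rotE (rotE 1)) = I := by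
      simp only [rotE_apply]; linear_combination (-I) * Complex.I_mul_I
    rw [e1, e2]; exact s4

/-- In the equality case the corner of the first quadrant belongs to `F`. -/
lemma corner (h : Cfg F Γ t1 t2 t3 t4 x1 x2 x3 x4 L) (hL : L = ENNReal.ofReal (x1 + x2))
    (s1 : Supp F (x1 : ℂ) I) (s2 : Supp F (x2 * I) (-1)) : (x1 : ℂ) + x2 * I ∈ F := by
  obtain ⟨hx1, hx2, hx3, hx4⟩ := h.pos
  have hpi := Real.pi_pos
  have l1 : t1 ∈ Icc t1 t2 := left_mem_Icc.mpr h.h12.le
  have l2 : t2 ∈ Icc t1 t2 := right_mem_Icc.mpr h.h12.le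
  -- a parameter on the ray through the corner
  have hcont : Continuous (fun t => x1 * (Γ t).im - x2 * (Γ t).re) :=
    (continuous_const.mul (Complex.continuous_im.comp h.cont)).sub
      (continuous_const.mul (Complex.continuous_re.comp h.cont))
  have hivt := intermediate_value_Icc h.h12.le hcont.continuousOn
  obtain ⟨s, hs, hs0⟩ := hivt (show (0 : ℝ) ∈ Icc _ _ by
    simp only [h.e1, h.e2]
    simp
    exact ⟨by positivity, by positivity⟩)
  simp only at hs0
  obtain ⟨q1, q2⟩ := h.quad s hs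
  -- Γ s = λ (x1 + x2 I)
  obtain ⟨c, hc⟩ : ∃ c, c = (Γ s).re / x1 := ⟨_, rfl⟩
  have hre : (Γ s).re = c * x1 := by rw [hc]; field_simp
  have him : (Γ s).im = c * x2 := by
    have : x1 * ((Γ s).im - c * x2) = 0 := by rw [hre] at hs0; linear_combination hs0
    rcases mul_eq_zero.mp this with h0 | h0
    · exact absurd h0 hx1.ne'
    · linarith
  have hc0 : 0 < c := by
    have hc0' : 0 ≤ c := by rw [hc]; positivity
    rcases hc0'.lt_or_eq with h0 | h0
    · exact h0
    · exfalso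
      rw [← h0] at hre him
      exact h.ne_zero s (Complex.ext (by simpa using hre) (by simpa using him))
  have hc1 : c ≤ 1 := by
    have := s1 _ (h.memF s)
    unfold cr at this
    simp at this
    rw [hre] at this
    by_contra hcon
    push Not at hcon
    have := mul_lt_mul_of_pos_right hcon hx1
    linarith
  have hst1 : t1 < s := by
    rcases eq_or_lt_of_le hs.1 with h0 | h0
    · exfalso
      rw [← h0, h.e1] at him
      simp at him
      rcases him with h1 | h1 <;> linarith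
    · exact h0
  have hst2 : s < t2 := by
    rcases eq_or_lt_of_le hs.2 with h0 | h0
    · exfalso
      rw [h0, h.e2] at hre
      simp at hre
      rcases hre with h1 | h1 <;> linarith
    · exact h0
  suffices hc' : c = 1 by
    have : Γ s = (x1 : ℂ) + x2 * I := by
      apply Complex.ext
      · rw [hre, hc']; simp
      · rw [him, hc']; simp
    rw [← this]; exact h.memF s
  by_contra hne
  have hclt : c < 1 := lt_of_le_of_ne hc1 hne
  have g1 : 0 < cr (Γ t1) I := by rw [h.e1]; unfold cr; simp [hx1]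
  have g2 : 0 < cr (Γ t2) (-1) := by rw [h.e2]; unfold cr; simp [hx2]
  have s1' : Supp F (Γ t1) I := by rw [h.e1]; exact s1
  have s2' : Supp F (Γ t2) (-1) := by rw [h.e2]; exact s2
  obtain ⟨e, he, hep⟩ := h.exists_supp s
  have hI : A I = -(π/4) := by
    have := A_tilt (t := 0) ⟨by linarith, by linarith⟩
    simp at this
    exact this
  have hm1 : A (-1) = π/4 := by
    have := A_tilt' (t := 0) ⟨by linarith, by linarith⟩
    simp at this
    exact this
  obtain ⟨m1, m2⟩ := h.incr l1 hs hst1 s1' g1 he hep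
  obtain ⟨m3, m4⟩ := h.incr hs l2 hst2 he hep s2' g2
  have b1 : -(π/4) ≤ A e := by rw [← hI]; exact m1.trans m2
  have b2 : A e ≤ π/4 := by rw [← hm1]; exact m3.trans m4
  obtain ⟨ψ, hψ⟩ : ∃ ψ, ψ = (A e + π/4)/2 := ⟨_, rfl⟩
  obtain ⟨χ, hχ⟩ : ∃ χ, χ = π/4 - ψ := ⟨_, rfl⟩
  have hψ0 : 0 ≤ ψ := by rw [hψ]; linarith
  have hψ1 : ψ ≤ π/4 := by rw [hψ]; linarith
  have hχ0 : 0 ≤ χ := by rw [hχ]; linarith
  have hχ1 : χ ≤ π/4 := by rw [hχ]; linarith
  have cψ : 0 < Real.cos ψ := Real.cos_pos_of_mem_Ioo ⟨by linarith, by linarith⟩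
  have cχ : 0 < Real.cos χ := Real.cos_pos_of_mem_Ioo ⟨by linarith, by linarith⟩
  have cone1 := h.cone l1 hs s1' g1 he hep
  have cone2 := h.cone hs l2 he hep s2' g2
  rw [hI] at cone1
  rw [hm1] at cone2
  rw [show (A e - -(π/4))/2 = ψ by rw [hψ]; ring,
    show 3 * π / 4 + (-(π/4) + A e)/2 = ψ + π/2 by rw [hψ]; ring] at cone1
  rw [show (π/4 - A e)/2 = χ by rw [hχ, hψ]; ring,
    show 3 * π / 4 + (A e + π/4)/2 = π - χ by rw [hχ, hψ]; ring] at cone2
  have v1 := eVar_le hst1.le cψ cone1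
  have v2 := eVar_le hst2.le cχ cone2
  have hadd := eVariationOn.Icc_add_Icc Γ (s := univ) hst1.le hst2.le (mem_univ _)
  simp only [univ_inter] at hadd
  rw [h.v1] at hadd
  have hd1 : dt (ψ + π/2) (Γ s - Γ t1) / Real.cos ψ = (1 - c) * x1 * Real.tan ψ + c * x2 := by
    unfold dt
    rw [Real.cos_add_pi_div_two, Real.sin_add_pi_div_two, Complex.sub_re, Complex.sub_im, hre, him,
      h.e1, Real.tan_eq_sin_div_cos]
    simp
    field_simp
    ring
  have hd2 : dt (π - χ) (Γ t2 - Γ s) / Real.cos χ = c * x1 + (1 - c) * x2 * Real.tan χ := by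
    unfold dt
    rw [Real.cos_pi_sub, Real.sin_pi_sub, Complex.sub_re, Complex.sub_im, hre, him,
      h.e2, Real.tan_eq_sin_div_cos]
    simp
    field_simp
  rw [hd1] at v1
  rw [hd2] at v2
  have tψ0 : 0 ≤ Real.tan ψ := Real.tan_nonneg_of_nonneg_of_le_pi_div_two hψ0 (by linarith)
  have tχ0 : 0 ≤ Real.tan χ := Real.tan_nonneg_of_nonneg_of_le_pi_div_two hχ0 (by linarith)
  have hc1' : 0 < 1 - c := by linarith
  have hsum := add_le_add v1 v2
  rw [hadd, hL, ← ENNReal.ofReal_add (by positivity) (by positivity),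
    ENNReal.ofReal_le_ofReal_iff (by positivity)] at hsum
  have tanmono : ∀ a : ℝ, 0 ≤ a → a ≤ π/4 → Real.tan a ≤ 1 := by
    intro a ha0 ha1
    rw [← Real.tan_pi_div_four]
    rcases ha1.lt_or_eq with h0 | h0
    · exact (Real.tan_lt_tan_of_lt_of_lt_pi_div_two (by linarith) (by linarith) h0).le
    · rw [h0]
  have tψ1 := tanmono ψ hψ0 hψ1
  have tχ1 := tanmono χ hχ0 hχ1
  have hfin : x1 + x2 ≤ x1 * Real.tan ψ + x2 * Real.tan χ := by
    have : (1 - c) * (x1 + x2) ≤ (1 - c) * (x1 * Real.tan ψ + x2 * Real.tan χ) := by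
      linear_combination hsum
    exact le_of_mul_le_mul_left this hc1'
  rcases hψ1.lt_or_eq with h0 | h0
  · have : Real.tan ψ < 1 := by
      rw [← Real.tan_pi_div_four]
      exact Real.tan_lt_tan_of_lt_of_lt_pi_div_two (by linarith) (by linarith) h0
    have e1 := mul_lt_mul_of_pos_left this hx1
    have e2 := mul_le_mul_of_nonneg_left tχ1 hx2.le
    linarith
  · have hχz : χ = 0 := by rw [hχ, h0]; ring
    rw [hχz, Real.tan_zero] at hfin
    have e1 := mul_le_mul_of_nonneg_left tψ1 hx1.le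
    linarith

/-- Equality case: `F` is the rectangle. -/
lemma rect (h : Cfg F Γ t1 t2 t3 t4 x1 x2 x3 x4 L) {l : ℝ} (hL : L = ENNReal.ofReal l)
    (hl : 2 * l = x1 + x2 + x3 + x4) (h13 : x1 = x3) (h24 : x2 = x4)
    (s1 : Supp F (x1 : ℂ) I) (s2 : Supp F (x2 * I) (-1))
    (s3 : Supp F (-x3 : ℂ) (-I)) (s4 : Supp F (-x4 * I) 1) (z : ℂ) :
    z ∈ F ↔ (-x1 ≤ z.re ∧ z.re ≤ x1) ∧ (-x2 ≤ z.im ∧ z.im ≤ x2) := by
  obtain ⟨hx1, hx2, hx3, hx4⟩ := h.pos
  subst h13 h24
  have hll : l = x1 + x2 := by linarith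
  constructor
  · intro hz
    have a1 := s1 z hz
    have a2 := s2 z hz
    have a3 := s3 z hz
    have a4 := s4 z hz
    unfold cr at a1 a2 a3 a4
    simp at a1 a2 a3 a4
    exact ⟨⟨by linarith, by linarith⟩, ⟨by linarith, by linarith⟩⟩
  · rintro ⟨⟨h1, h2⟩, ⟨h3, h4⟩⟩
    have r1 := h.rot
    have r2 := r1.rot
    have r3 := r2.rot
    -- supports of rotated sets
    have c1 := h.corner (by rw [hL, hll]) s1 s2
    have S1 := s2.rot
    have S2 := s3.rot
    have S3 := s4.rot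
    have S4 := s1.rot
    have e1 : rotE ((x2 : ℂ) * I) = x2 := by
      rw [rotE_apply]; linear_combination (-(x2 : ℂ)) * Complex.I_mul_I
    have e1' : rotE (-1) = I := by rw [rotE_apply]; ring
    have e2 : rotE (-(x1 : ℂ)) = x1 * I := by rw [rotE_apply]; ring
    have e2' : rotE (-I) = -1 := by rw [rotE_apply]; linear_combination Complex.I_mul_I
    have e3 : rotE (-(x2 : ℂ) * I) = -x2 := by
      rw [rotE_apply]; linear_combination ((x2 : ℂ)) * Complex.I_mul_I
    have e3' : rotE 1 = -I := by rw [rotE_apply]; ring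
    have e4 : rotE (x1 : ℂ) = -x1 * I := by rw [rotE_apply]; ring
    have e4' : rotE I = 1 := by rw [rotE_apply]; linear_combination (-1 : ℂ) * Complex.I_mul_I
    rw [e1, e1'] at S1
    rw [e2, e2'] at S2
    rw [e3, e3'] at S3
    rw [e4, e4'] at S4
    have c2 := r1.corner (by rw [hL, hll, add_comm]) S1 S2
    have S1' := S2.rot
    have S2' := S3.rot
    have S3' := S4.rot
    have e5 : rotE ((x1 : ℂ) * I) = x1 := by
      rw [rotE_apply]; linear_combination (-(x1 : ℂ)) * Complex.I_mul_I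
    have e6 : rotE (-(x2 : ℂ)) = x2 * I := by rw [rotE_apply]; ring
    have e7 : rotE (-(x1 : ℂ) * I) = -x1 := by
      rw [rotE_apply]; linear_combination ((x1 : ℂ)) * Complex.I_mul_I
    rw [e5, e1'] at S1'
    rw [e6, e2'] at S2'
    rw [e7, e3'] at S3'
    have c3 := r2.corner (by rw [hL, hll]) S1' S2'
    have S1'' := S2'.rot
    have S2'' := S3'.rot
    rw [e1, e1'] at S1''
    rw [e2, e2'] at S2''
    have c4 := r3.corner (by rw [hL, hll, add_comm]) S1'' S2''
    -- pull back the corners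
    have d2 : -(x1 : ℂ) + x2 * I ∈ F := by
      obtain ⟨w, hw, hw'⟩ := c2
      have : w = -(x1 : ℂ) + x2 * I := by
        apply rotE.injective
        rw [hw', rotE_apply]
        linear_combination ((x2 : ℂ)) * Complex.I_mul_I
      rwa [← this]
    have d3 : -(x1 : ℂ) - x2 * I ∈ F := by
      obtain ⟨w', ⟨w, hw, rfl⟩, hw'⟩ := c3
      have : w = -(x1 : ℂ) - x2 * I := by
        apply rotE.injective
        apply rotE.injective
        rw [hw', rotE_apply, rotE_apply]
        linear_combination (x1 + x2 * I) * Complex.I_mul_I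
      rwa [← this]
    have d4 : (x1 : ℂ) - x2 * I ∈ F := by
      obtain ⟨w'', ⟨w', ⟨w, hw, rfl⟩, rfl⟩, hw'⟩ := c4
      have : w = (x1 : ℂ) - x2 * I := by
        apply rotE.injective
        apply rotE.injective
        apply rotE.injective
        rw [hw', rotE_apply, rotE_apply, rotE_apply]
        have := Complex.I_mul_I
        linear_combination (x1 * I - x2 * (I * I) + x2) * Complex.I_mul_I
      rwa [← this]
    -- convex combination
    obtain ⟨u, hu⟩ : ∃ u, u = (z.re + x1) / (2 * x1) := ⟨_, rfl⟩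
    obtain ⟨v, hv⟩ : ∃ v, v = (z.im + x2) / (2 * x2) := ⟨_, rfl⟩
    have hu0 : 0 ≤ u := by rw [hu]; apply div_nonneg <;> linarith
    have hu1 : u ≤ 1 := by rw [hu, div_le_one (by linarith)]; linarith
    have hv0 : 0 ≤ v := by rw [hv]; apply div_nonneg <;> linarith
    have hv1 : v ≤ 1 := by rw [hv, div_le_one (by linarith)]; linarith
    have top := h.conv d2 c1 (a := 1 - u) (b := u) (by linarith) hu0 (by ring)
    have bot := h.conv d3 d4 (a := 1 - u) (b := u) (by linarith) hu0 (by ring)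
    have fin := h.conv bot top (a := 1 - v) (b := v) (by linarith) hv0 (by ring)
    convert fin using 1
    apply Complex.ext
    · simp
      rw [hu]; field_simp; ring
    · simp
      rw [hv]; field_simp; ring

end Cfg

end Pool.Agent.Helper53_Quad
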